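import Mathlib
import Pool.Agent.Lib.MP_d2370c_gt.CoreA

/-!
# Sections and projections: definitions

`FP f F`: two continuous integrable real functions on the line, each the Fourier transform of the other.
`lin u` is the linear map `ℝ^n → ℝ^N` with rows `u i`, `linT u` its transpose, `Inj u` injectivity.
`SI u F a` is the Fourier integral over `ℝ^n` of the product `∏ i, F i (⟨u i, x⟩)`.
`supp C` is the support function of `C`.
-/

set_option autoImplicit false

open Finset MeasureTheory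

namespace Pool.Agent.Lib.MP_d2370c_gt.SQ

open Pool.Agent.Lib.MP_d2370c_gt

/-- a Fourier pair -/
structure FP (f F : ℝ → ℝ) : Prop where
  contf : Continuous f
  contF : Continuous F
  intf : Integrable f
  intF : Integrable F
  fwd : ∀ t, ∫ x, (f x : ℂ) * ee (x * t) = (F t : ℂ)
  bwd : ∀ x, ∫ t, (F t : ℂ) * ee (t * x) = (f x : ℂ)

/-- the tent function -/
noncomputable def tent (t : ℝ) : ℝ := max 0 (1 - |t|)

/-- the kernel of Fejer on the line -/
noncomputable def fejer (x : ℝ) : ℝ := Real.sinc (Real.pi * x) ^ 2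

/-- convolution -/
noncomputable def cv (f g : ℝ → ℝ) (x : ℝ) : ℝ := ∫ s, f (x - s) * g s

/-- the window, normalized by `KK 0 = 1`, zero outside `(-1, 1)` -/
noncomputable def KK (t : ℝ) : ℝ := 3 / 2 * cv tent tent (2 * t)

/-- its transform -/
noncomputable def bb (x : ℝ) : ℝ := 3 / 4 * fejer (x / 2) ^ 2

/-- majorant of `x ^ 2 * bb x` -/
noncomputable def b1 (x : ℝ) : ℝ := 3 / Real.pi ^ 2 * fejer (x / 2)

/-- its transform -/
noncomputable def K1 (t : ℝ) : ℝ := 6 / Real.pi ^ 2 * tent (2 * t)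

variable {n N d : ℕ}

/-- the linear map with rows `u i` -/
def lin (u : Fin N → Fin n → ℝ) (x : Fin n → ℝ) (i : Fin N) : ℝ := ∑ k, u i k * x k

/-- the transposed map -/
def linT (u : Fin N → Fin n → ℝ) (c : Fin N → ℝ) (k : Fin n) : ℝ := ∑ i, u i k * c i

/-- injectivity -/
def Inj (u : Fin N → Fin n → ℝ) : Prop := ∀ x, lin u x = 0 → x = 0

/-- the Fourier integral of a product of functions of linear forms -/
noncomputable def SI (u : Fin N → Fin n → ℝ) (F : Fin N → ℝ → ℝ) (a : Fin n → ℝ) : ℂ :=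
  ∫ x : Fin n → ℝ, ((∏ i, F i (lin u x i) : ℝ) : ℂ) * ee (∑ k, x k * a k)

/-- the function `ρ` in every place except `i`, where it is `ρ'` -/
noncomputable def at1 (ρ ρ' : ℝ → ℝ) (i : Fin N) : Fin N → ℝ → ℝ := fun j => if j = i then ρ' else ρ

/-- the affine image of a section -/
def subq (u : Fin N → Fin n → ℝ) (v : Fin n → Fin d → ℝ) (x0 : Fin d → ℝ) (T : Set (Fin N → ℝ)) : Set (Fin d → ℝ) :=
  {z | ∃ x : Fin n → ℝ, lin u x ∈ T ∧ z = XX x0 v x}

/-- symmetric polytope with at most `2 N` facets -/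
def slab (u : Fin N → Fin d → ℝ) (x0 : Fin d → ℝ) : Set (Fin d → ℝ) := {z | ∀ i, |∑ k, u i k * (z k - x0 k)| ≤ 1}

/-- support function -/
noncomputable def supp (C : Set (Fin n → ℝ)) (a : Fin n → ℝ) : ℝ := sSup ((fun x => ∑ k, x k * a k) '' C)

end Pool.Agent.Lib.MP_d2370c_gt.SQ
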