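import Mathlib
import Pool.Agent.Lib.MP_d2370c_gt.SQ.Defs
import Pool.Agent.Lib.MP_d2370c_gt.CoreA

/-!
# B5: the average of the kernel against an integrable function on `ℝ^n`
-/

set_option autoImplicit false

open Finset MeasureTheory

namespace Pool.Agent.Lib.MP_d2370c_gt.SQ

open Pool.Agent.Lib.MP_d2370c_gt

variable {n d : ℕ}

theorem avg_integrable (G : (Fin n → ℝ) → ℝ) (hG : Integrable G) (a : Fin n → ℝ) :
    Integrable fun x : Fin n → ℝ => (G x : ℂ) * ee (∑ k, x k * a k) := by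
  have hc : Continuous fun x : Fin n → ℝ => ee (∑ k, x k * a k) :=
    continuous_ee.comp (by fun_prop)
  refine hG.norm.mono' (hG.ofReal.aestronglyMeasurable.mul hc.aestronglyMeasurable) ?_
  filter_upwards with x
  rw [norm_mul, norm_ee, mul_one, Complex.norm_real]

theorem J_eq (G : (Fin n → ℝ) → ℝ) (hG : Integrable G) (x0 : Fin d → ℝ) (v : Fin n → Fin d → ℝ) (m : ℕ) :
    ((∫ x, PP (XX x0 v x) ^ m * G x : ℝ) : ℂ) =
      ∑ κ ∈ ix d m, ((cf m κ : ℝ) : ℂ) * (ee (∑ i, ((yy m κ i : ℤ) : ℝ) * x0 i) *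
        ∫ x, (G x : ℂ) * ee (∑ k, x k * pr v (fun i => ((yy m κ i : ℤ) : ℝ)) k)) := by
  have e1 : ((∫ x, PP (XX x0 v x) ^ m * G x : ℝ) : ℂ) =
      ∫ x, ((PP (XX x0 v x) ^ m * G x : ℝ) : ℂ) := integral_ofReal.symm
  have e2 : ∀ x : Fin n → ℝ, ((PP (XX x0 v x) ^ m * G x : ℝ) : ℂ) =
      ∑ κ ∈ ix d m, (((cf m κ : ℝ) : ℂ) * ee (∑ i, ((yy m κ i : ℤ) : ℝ) * x0 i)) *
        ((G x : ℂ) * ee (∑ k, x k * pr v (fun i => ((yy m κ i : ℤ) : ℝ)) k)) := by
    intro x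
    rw [Complex.ofReal_mul, PP_pow_expand', Finset.sum_mul]
    refine Finset.sum_congr rfl fun κ _ => ?_
    rw [sum_XX, ee_add]
    ring
  rw [e1]
  simp_rw [e2]
  rw [integral_finsetSum _ fun κ _ => (avg_integrable G hG _).const_mul _]
  refine Finset.sum_congr rfl fun κ _ => ?_
  rw [integral_const_mul]
  ring

end Pool.Agent.Lib.MP_d2370c_gt.SQ
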