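import Mathlib
import Pool.Agent.Lib.MP_d2370c_gt.SQ.Defs

/-!
# Support functions, preimages under injective linear maps
-/

set_option autoImplicit false

open Finset MeasureTheory Filter Topology

namespace Pool.Agent.Lib.MP_d2370c_gt.SQ

open Pool.Agent.Lib.MP_d2370c_gt

variable {n N d : ℕ}

theorem supp_aux_cont (a : Fin n → ℝ) : Continuous fun x : Fin n → ℝ => ∑ k, x k * a k := by
  fun_prop

theorem supp_aux_bdd {C : Set (Fin n → ℝ)} (hC : IsCompact C) (a : Fin n → ℝ) :
    BddAbove ((fun x => ∑ k, x k * a k) '' C) :=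
  (hC.image (supp_aux_cont a)).bddAbove

theorem le_supp {C : Set (Fin n → ℝ)} (hC : IsCompact C) (a : Fin n → ℝ) {x : Fin n → ℝ} (hx : x ∈ C) :
    ∑ k, x k * a k ≤ supp C a :=
  le_csSup (supp_aux_bdd hC a) ⟨x, hx, rfl⟩

theorem supp_le {C : Set (Fin n → ℝ)} (hne : C.Nonempty) (a : Fin n → ℝ) {B : ℝ} (h : ∀ x ∈ C, ∑ k, x k * a k ≤ B) :
    supp C a ≤ B := by
  apply csSup_le (hne.image _)
  rintro _ ⟨x, hx, rfl⟩
  exact h x hx

theorem supp_add {C : Set (Fin n → ℝ)} (hC : IsCompact C) (hne : C.Nonempty) (a b : Fin n → ℝ) :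
    supp C (a + b) ≤ supp C a + supp C b := by
  apply supp_le hne
  intro x hx
  have h : ∑ k, x k * (a + b) k = ∑ k, x k * a k + ∑ k, x k * b k := by
    rw [← Finset.sum_add_distrib]
    exact Finset.sum_congr rfl fun k _ => by rw [Pi.add_apply]; ring
  rw [h]
  exact add_le_add (le_supp hC a hx) (le_supp hC b hx)

theorem supp_bd {C : Set (Fin n → ℝ)} (hC : IsCompact C) (hne : C.Nonempty) :
    ∃ Ch : ℝ, ∀ b, supp C b ≤ Ch * ∑ k, |b k| := by
  obtain ⟨B, hB⟩ := hC.isBounded.exists_norm_le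
  refine ⟨B, fun b => supp_le hne b fun x hx => ?_⟩
  rw [Finset.mul_sum]
  apply Finset.sum_le_sum
  intro k _
  calc x k * b k ≤ |x k * b k| := le_abs_self _
    _ = |x k| * |b k| := abs_mul _ _
    _ ≤ B * |b k| := by
        apply mul_le_mul_of_nonneg_right _ (abs_nonneg _)
        calc |x k| = ‖x k‖ := (Real.norm_eq_abs _).symm
          _ ≤ ‖x‖ := norm_le_pi_norm x k
          _ ≤ B := hB x hx

/-- `lin u` as a linear map -/
noncomputable def linL (u : Fin N → Fin n → ℝ) : (Fin n → ℝ) →ₗ[ℝ] (Fin N → ℝ) where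
  toFun := lin u
  map_add' x y := by
    ext i
    simp only [lin, Pi.add_apply, mul_add, Finset.sum_add_distrib]
  map_smul' c x := by
    ext i
    simp only [lin, Pi.smul_apply, smul_eq_mul, RingHom.id_apply, Finset.mul_sum]
    exact Finset.sum_congr rfl fun k _ => by ring

theorem linL_apply (u : Fin N → Fin n → ℝ) (x : Fin n → ℝ) : linL u x = lin u x := rfl

/-- preimages of compact sets under an injective linear map are compact -/
theorem compact_pre {u : Fin N → Fin n → ℝ} (hu : Inj u) {T : Set (Fin N → ℝ)} (hT : IsCompact T) :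
    IsCompact {x : Fin n → ℝ | lin u x ∈ T} := by
  have hk : LinearMap.ker (linL u) = ⊥ := by
    rw [LinearMap.ker_eq_bot']
    intro x hx
    exact hu x hx
  have hc := LinearMap.isClosedEmbedding_of_injective hk
  exact hc.isCompact_preimage hT

theorem lin_linT (u : Fin N → Fin n → ℝ) (c : Fin N → ℝ) (x : Fin n → ℝ) :
    ∑ k, x k * linT u c k = ∑ i, c i * lin u x i := by
  simp only [linT, lin, Finset.mul_sum]
  rw [Finset.sum_comm]
  exact Finset.sum_congr rfl fun i _ => Finset.sum_congr rfl fun k _ => by ring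

theorem interior_of_lt (K : Set (Fin d → ℝ)) (hK : Convex ℝ K) (x0 : Fin d → ℝ) (v : Fin n → Fin d → ℝ)
    (g : (Fin n → ℝ) → ℝ) (hg : Continuous g) (hin : ∀ x, g x ≤ 1 → XX x0 v x ∈ K) (s : Fin n → ℝ)
    (hs : XX x0 v s ∈ interior K) (x : Fin n → ℝ) (hx : g x < 1) : XX x0 v x ∈ interior K := by
  -- for small `ε > 0` the point `x' = x + ε (x - s)` has `g x' ≤ 1`
  have hc : Continuous fun ε : ℝ => g (x + ε • (x - s)) := by fun_prop
  have h0 : (fun ε : ℝ => g (x + ε • (x - s))) 0 < 1 := by simpa using hx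
  have hev : ∀ᶠ ε in 𝓝 (0 : ℝ), g (x + ε • (x - s)) < 1 :=
    (hc.continuousAt (x := (0 : ℝ))).eventually_lt_const h0
  obtain ⟨δ, hδ, hball⟩ := Metric.eventually_nhds_iff.1 hev
  have hε : g (x + (δ / 2) • (x - s)) < 1 := by
    apply hball
    rw [Real.dist_eq, sub_zero, abs_of_pos (by linarith)]
    linarith
  have hmem : XX x0 v (x + (δ / 2) • (x - s)) ∈ K := hin _ hε.le
  have hp : 0 < 1 + δ / 2 := by linarith
  -- `x` lies on the open segment from `x'` to `s`
  have hcomb : XX x0 v x = ((δ / 2) / (1 + δ / 2)) • XX x0 v s + (1 / (1 + δ / 2)) • XX x0 v (x + (δ / 2) • (x - s)) := by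
    ext i
    simp only [XX, Pi.add_apply, Pi.smul_apply, smul_eq_mul, Pi.sub_apply]
    have e1 : ∑ j, (x j + δ / 2 * (x j - s j)) * v j i =
        (1 + δ / 2) * ∑ j, x j * v j i - δ / 2 * ∑ j, s j * v j i := by
      rw [Finset.mul_sum, Finset.mul_sum, ← Finset.sum_sub_distrib]
      exact Finset.sum_congr rfl fun j _ => by ring
    rw [e1]
    field_simp
    ring
  rw [hcomb]
  apply hK.combo_interior_self_mem_interior hs hmem
  · positivity
  · positivity
  · field_simp
    ring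

end Pool.Agent.Lib.MP_d2370c_gt.SQ
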