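import Pool.Agent.Lib.MP_d2370c_gt.SQ.Min
import Pool.Agent.Lib.MP_d2370c_gt.SQ.Avg
import Pool.Agent.Lib.MP_d2370c_gt.SQ.Supp

/-!
# SQ: the main averaging theorem (row B6)
-/

set_option autoImplicit false

open Finset MeasureTheory Filter Topology

namespace Pool.Agent.Lib.MP_d2370c_gt.SQ

open Pool.Agent.Lib.MP_d2370c_gt

variable {n N d : ℕ}

private theorem akt_at1_prod (ρ ρ' : ℝ → ℝ) (i : Fin N) (t : Fin N → ℝ) :
    ∏ j, at1 ρ ρ' i j (t j) = ρ' (t i) * ∏ j ∈ univ.erase i, ρ (t j) := by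
  rw [← Finset.mul_prod_erase univ _ (mem_univ i)]
  congr 1
  · simp [at1]
  · refine prod_congr rfl fun j hj => ?_
    simp [at1, ne_of_mem_erase hj]

private theorem akt_prod (ρ : ℝ → ℝ) (i : Fin N) (t : Fin N → ℝ) :
    ∏ j, ρ (t j) = ρ (t i) * ∏ j ∈ univ.erase i, ρ (t j) :=
  (Finset.mul_prod_erase univ _ (mem_univ i)).symm

private theorem akt_fp (φ ρ h1 ρ1 : ℝ → ℝ) (hφ : FP φ ρ) (hh1 : FP h1 ρ1) (i j : Fin N) :
    FP (at1 φ h1 i j) (at1 ρ ρ1 i j) := by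
  unfold at1
  split_ifs
  · exact hh1
  · exact hφ

private theorem akt_int {u : Fin N → Fin n → ℝ} (hu : Inj u) (f F : Fin N → ℝ → ℝ) (hf : ∀ i, FP (f i) (F i)) :
    Integrable fun x : Fin n → ℝ => ∏ i, F i (lin u x i) :=
  int_prod hu F (fun i => (hf i).contF) (fun i => (hf i).intF) fun i => by
    obtain ⟨C, _, hC⟩ := (hf i).bdd
    exact ⟨C, hC⟩

private theorem akt_intPP (x0 : Fin d → ℝ) (v : Fin n → Fin d → ℝ) (m : ℕ) (G : (Fin n → ℝ) → ℝ)
    (hG : Integrable G) : Integrable fun x => PP (XX x0 v x) ^ m * G x := by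
  have h7 : Continuous fun x : Fin n → ℝ => PP (XX x0 v x) ^ m :=
    ((continuous_PP (d := d)).comp (continuous_XX x0 v)).pow m
  refine hG.norm.mono' (h7.aestronglyMeasurable.mul hG.aestronglyMeasurable) ?_
  filter_upwards with x
  rw [norm_mul, Real.norm_eq_abs, abs_of_nonneg (pow_nonneg (PP_nonneg _) m)]
  have h9 : PP (XX x0 v x) ^ m ≤ 1 := pow_le_one₀ (PP_nonneg _) (PP_le_one _)
  calc PP (XX x0 v x) ^ m * ‖G x‖ ≤ 1 * ‖G x‖ := mul_le_mul_of_nonneg_right h9 (norm_nonneg _)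
    _ = _ := one_mul _

/-- the frequency of an index -/
private noncomputable def fr (v : Fin n → Fin d → ℝ) (m : ℕ) (κ : Fin d → ℕ) : Fin n → ℝ :=
  pr v fun i => ((yy m κ i : ℤ) : ℝ)

/-- real part of the expansion, `x0 = 0` -/
private theorem akt_zero {u : Fin N → Fin n → ℝ} (hu : Inj u) (f F : Fin N → ℝ → ℝ) (hf : ∀ i, FP (f i) (F i))
    (v : Fin n → Fin d → ℝ) (m : ℕ) :
    ∫ x, PP (XX 0 v x) ^ m * ∏ i, F i (lin u x i) = ∑ κ ∈ ix d m, cf m κ * (SI u F (fr v m κ)).re := by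
  have h := J_eq (fun x : Fin n → ℝ => ∏ i, F i (lin u x i)) (akt_int hu f F hf) 0 v m
  have h2 := congrArg Complex.re h
  rw [Complex.ofReal_re] at h2
  rw [h2, Complex.re_sum]
  refine sum_congr rfl fun κ _ => ?_
  rw [Complex.re_ofReal_mul]
  congr 2
  have : (∑ i, ((yy m κ i : ℤ) : ℝ) * (0 : Fin d → ℝ) i) = 0 := by simp
  rw [this, ee_zero, one_mul]
  rfl

/-- upper bound of the expansion -/
private theorem akt_upper {u : Fin N → Fin n → ℝ} (hu : Inj u) (f F : Fin N → ℝ → ℝ) (hf : ∀ i, FP (f i) (F i))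
    (x0 : Fin d → ℝ) (v : Fin n → Fin d → ℝ) (m : ℕ) :
    ∫ x, PP (XX x0 v x) ^ m * ∏ i, F i (lin u x i) ≤ ∑ κ ∈ ix d m, cf m κ * ‖SI u F (fr v m κ)‖ := by
  have h := J_eq (fun x : Fin n → ℝ => ∏ i, F i (lin u x i)) (akt_int hu f F hf) x0 v m
  have h2 := congrArg Complex.re h
  rw [Complex.ofReal_re] at h2
  rw [h2, Complex.re_sum]
  refine sum_le_sum fun κ _ => ?_
  rw [Complex.re_ofReal_mul]
  refine mul_le_mul_of_nonneg_left ?_ (cf_nonneg m κ)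
  refine (Complex.re_le_norm _).trans ?_
  rw [norm_mul, norm_ee, one_mul]
  exact le_rfl

/-- lower bound of the expansion -/
private theorem akt_lower {u : Fin N → Fin n → ℝ} (hu : Inj u) (f F : Fin N → ℝ → ℝ) (hf : ∀ i, FP (f i) (F i))
    (x0 : Fin d → ℝ) (v : Fin n → Fin d → ℝ) (m : ℕ) :
    cf m (fun _ : Fin d => m) * (SI u F 0).re -
        ∑ κ ∈ (ix d m).erase (fun _ : Fin d => m), cf m κ * ‖SI u F (fr v m κ)‖ ≤
      ∫ x, PP (XX x0 v x) ^ m * ∏ i, F i (lin u x i) := by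
  have h := J_eq (fun x : Fin n → ℝ => ∏ i, F i (lin u x i)) (akt_int hu f F hf) x0 v m
  have h2 := congrArg Complex.re h
  rw [Complex.ofReal_re] at h2
  rw [h2, Complex.re_sum, ← Finset.add_sum_erase (ix d m) _ (mem_ix m), sub_eq_add_neg]
  refine add_le_add ?_ ?_
  · rw [Complex.re_ofReal_mul]
    refine le_of_eq ?_
    congr 2
    have h3 : ∀ i : Fin d, ((yy m (fun _ : Fin d => m) i : ℤ) : ℝ) = 0 := by
      intro i
      simp [yy]
    have h4 : (∑ i, ((yy m (fun _ : Fin d => m) i : ℤ) : ℝ) * x0 i) = 0 := by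
      refine sum_eq_zero fun i _ => ?_
      rw [h3, zero_mul]
    rw [h4, ee_zero, one_mul]
    unfold SI
    congr 1
    funext x
    congr 2
    refine sum_congr rfl fun k _ => ?_
    congr 1
    unfold pr
    rw [Pi.zero_apply]
    symm
    refine sum_eq_zero fun i _ => ?_
    show v k i * ((yy m (fun _ : Fin d => m) i : ℤ) : ℝ) = 0
    rw [h3, mul_zero]
  · rw [← Finset.sum_neg_distrib]
    refine sum_le_sum fun κ _ => ?_
    rw [Complex.re_ofReal_mul, ← mul_neg]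
    refine mul_le_mul_of_nonneg_left ?_ (cf_nonneg m κ)
    have h5 : |(ee (∑ i, ((yy m κ i : ℤ) : ℝ) * x0 i) *
        ∫ x, ((∏ i, F i (lin u x i) : ℝ) : ℂ) * ee (∑ k, x k * pr v (fun i => ((yy m κ i : ℤ) : ℝ)) k)).re| ≤
        ‖SI u F (fr v m κ)‖ := by
      refine (Complex.abs_re_le_norm _).trans ?_
      rw [norm_mul, norm_ee, one_mul]
      exact le_rfl
    exact (abs_le.1 h5).1

theorem akt {u : Fin N → Fin n → ℝ} (hu : Inj u) (x0 : Fin d → ℝ) (v : Fin n → Fin d → ℝ)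
    (φ ρ : ℝ → ℝ) (hφ : FP φ ρ) (hφ0 : ∀ c, 0 ≤ φ c) (hρ0 : ∀ t, 0 ≤ ρ t) (hρ1 : 0 < ρ 0)
    (h1 ρ1 : ℝ → ℝ) (hh1 : FP h1 ρ1) (E : ℝ → ℝ) (hE0 : ∀ c, 0 ≤ E c) (hE : ∀ c, E c * φ c ≤ h1 c)
    (θ κ1 : ℝ) (hθ0 : 0 ≤ θ) (hθ1 : θ < 1) (hκ1 : ∀ t, ρ1 t ≤ κ1 * ρ t)
    (h : (Fin n → ℝ) → ℝ) (Ch : ℝ) (hadd : ∀ a b, h (a + b) ≤ h a + h b) (hCh : ∀ b, h b ≤ Ch * ∑ k, |b k|) (R : ℝ)
    (hR : ∀ c : Fin N → ℝ, R ≤ h (fun k => -linT u c k) → 1 ≤ θ + ∑ i, E (c i))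
    (hy : ∀ y : Fin d → ℤ, y ≠ 0 → R < h (pr v fun i => (y i : ℝ)))
    (h2 ρ2 : ℝ → ℝ) (hh2 : FP h2 ρ2) (E2 : ℝ → ℝ) (hE20 : ∀ t, 0 ≤ E2 t) (hE2 : ∀ t, E2 t * ρ t ≤ ρ2 t)
    (θ2 κ2 : ℝ) (hθ20 : 0 ≤ θ2) (hθ21 : θ2 < 1) (hκ2 : ∀ c, |h2 c| ≤ κ2 * φ c)
    (T : Set (Fin N → ℝ)) (hT : IsCompact T) (hTE : ∀ t, t ∉ T → 1 ≤ θ2 + ∑ i, E2 (t i))
    (p : ℝ) (hp : N * κ1 ≤ p * (1 - θ)) (hp1 : p < 1 / 2) (hp2 : N * κ2 < (1 - 2 * p) * (1 - θ2)) :
    ∃ z : Fin d → ℤ, ∃ x : Fin n → ℝ, lin u x ∈ T ∧ XX x0 v x = fun i => (z i : ℝ) := by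
  classical
  by_contra hcon
  push Not at hcon
  have hTc : IsCompact {x : Fin n → ℝ | lin u x ∈ T} := compact_pre hu hT
  have hKc : IsCompact (XX x0 v '' {x : Fin n → ℝ | lin u x ∈ T}) := hTc.image (continuous_XX x0 v)
  obtain ⟨q, hq0, hq1, hq⟩ := exists_q _ hKc (by
    rintro z ⟨x, hx, hz⟩
    exact hcon z x hx hz)
  have hθ : 0 < 1 - θ := by linarith
  have hθ2 : 0 < 1 - θ2 := by linarith
  -- the weight
  set w : (Fin n → ℝ) → ℝ := fun x => ∏ i, ρ (lin u x i) with hw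
  have hwint : Integrable w := akt_int hu (fun _ => φ) (fun _ => ρ) fun _ => hφ
  have hw0 : ∀ x, 0 ≤ w x := fun x => prod_nonneg fun i _ => hρ0 _
  have hlin : ∀ i : Fin N, Continuous fun x : Fin n → ℝ => lin u x i := by
    intro i
    unfold lin
    fun_prop
  have hwc : Continuous w := by
    rw [hw]
    exact continuous_finsetProd _ fun i _ => hφ.contF.comp (hlin i)
  set W : ℝ := ∫ x, w x with hW
  have hWpos : 0 < W := by
    rw [hW, integral_pos_iff_support_of_nonneg hw0 hwint]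
    apply IsOpen.measure_pos
    · exact hwc.isOpen_support
    · refine ⟨0, ?_⟩
      rw [Function.mem_support]
      have : w 0 = ρ 0 ^ N := by
        rw [hw]
        simp [lin]
      rw [this]
      exact (pow_pos hρ1 N).ne'
  have hSI0 : (SI u (fun _ => ρ) 0).re = W := by
    unfold SI
    have e1 : ∀ x : Fin n → ℝ, ((∏ i, ρ (lin u x i) : ℝ) : ℂ) * ee (∑ k, x k * (0 : Fin n → ℝ) k) =
        ((w x : ℝ) : ℂ) := by
      intro x
      simp [ee_zero, hw]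
    simp_rw [e1]
    have e2 : ∫ x, ((w x : ℝ) : ℂ) = ((∫ x, w x : ℝ) : ℂ) := integral_ofReal
    rw [e2, Complex.ofReal_re]
  -- the constants
  set c : ℝ := p + N * κ2 / (1 - θ2) with hc
  have hc1 : c < 1 - p := by
    have : N * κ2 / (1 - θ2) < 1 - 2 * p := by
      rw [div_lt_iff₀ hθ2]
      exact hp2
    linarith
  have h1p : 0 < 1 - p := by linarith
  set lam : ℝ := max c 0 / (1 - p) with hlam
  have hlam1 : lam < 1 := by
    rw [hlam, div_lt_one h1p]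
    exact max_lt hc1 h1p
  refine no_bound d (1 - lam) q (by linarith) hq0 hq1 fun m hm => ?_
  -- the sums
  set a : (Fin d → ℕ) → Fin n → ℝ := fun κ => fr v m κ with ha
  set I : (Fin d → ℕ) → ℂ := fun κ => SI u (fun _ => ρ) (a κ) with hI
  have hInorm : ∀ κ, ‖I κ‖ ≤ (I κ).re := fun κ =>
    mon hu (fun _ => φ) (fun _ => ρ) (fun _ => φ) (fun _ => ρ) (fun _ => hφ) (fun _ => hφ)
      (fun _ x => (abs_of_nonneg (hφ0 x)).le) (a κ)
  have hIre : ∀ κ, 0 ≤ (I κ).re := fun κ => (norm_nonneg _).trans (hInorm κ)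
  have hh10 : ∀ x, 0 ≤ h1 x := fun x => (mul_nonneg (hE0 x) (hφ0 x)).trans (hE x)
  have hI1 : ∀ i κ, 0 ≤ (SI u (at1 ρ ρ1 i) (a κ)).re := by
    intro i κ
    refine (norm_nonneg _).trans (mon hu (at1 φ h1 i) (at1 ρ ρ1 i) (at1 φ h1 i) (at1 ρ ρ1 i)
      (akt_fp φ ρ h1 ρ1 hφ hh1 i) (akt_fp φ ρ h1 ρ1 hφ hh1 i) (fun j x => ?_) (a κ))
    unfold at1
    split_ifs
    · exact (abs_of_nonneg (hh10 x)).le
    · exact (abs_of_nonneg (hφ0 x)).le
  set S : ℝ := ∫ x, PP (XX 0 v x) ^ m * w x with hS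
  have hSsum : S = ∑ κ ∈ ix d m, cf m κ * (I κ).re :=
    akt_zero hu (fun _ => φ) (fun _ => ρ) (fun _ => hφ) v m
  have hS0 : 0 ≤ S := integral_nonneg fun x => mul_nonneg (pow_nonneg (PP_nonneg _) m) (hw0 x)
  set κ0 : Fin d → ℕ := fun _ => m with hκ0
  set B : ℝ := ∑ κ ∈ (ix d m).erase κ0, cf m κ * (I κ).re with hB
  have hfr0 : fr v m κ0 = 0 := by
    funext k
    unfold fr pr
    rw [Pi.zero_apply]
    refine sum_eq_zero fun i _ => ?_
    simp [yy, hκ0]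
  have hI0 : (I κ0).re = W := by
    rw [← hSI0]
    simp only [hI, ha, hfr0]
  have hSB : S = cf m κ0 * W + B := by
    rw [hSsum, ← Finset.add_sum_erase (ix d m) _ (mem_ix m), hB]
    congr 1
    rw [← hI0]
  -- the bound for B
  have hB1 : (1 - θ) * B ≤ N * κ1 * S := by
    have e1 : (1 - θ) * B ≤ ∑ κ ∈ (ix d m).erase κ0, cf m κ * ∑ i, (SI u (at1 ρ ρ1 i) (a κ)).re := by
      rw [hB, Finset.mul_sum]
      refine sum_le_sum fun κ hκ => ?_
      have hne : yy m κ ≠ 0 := fun hh => (ne_of_mem_erase hκ) (yy_eq_zero hh)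
      have h3 := min_bound hu φ ρ h1 ρ1 hφ hφ0 hh1 E hE0 hE θ hθ0 h Ch hadd hCh R hR (a κ) (hy (yy m κ) hne)
      calc (1 - θ) * (cf m κ * (I κ).re) = cf m κ * ((1 - θ) * (I κ).re) := by ring
        _ ≤ _ := mul_le_mul_of_nonneg_left h3 (cf_nonneg m κ)
    have e2 : ∑ κ ∈ (ix d m).erase κ0, cf m κ * ∑ i, (SI u (at1 ρ ρ1 i) (a κ)).re ≤
        ∑ κ ∈ ix d m, cf m κ * ∑ i, (SI u (at1 ρ ρ1 i) (a κ)).re := by
      refine sum_le_sum_of_subset_of_nonneg (erase_subset _ _) fun κ _ _ => ?_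
      exact mul_nonneg (cf_nonneg m κ) (sum_nonneg fun i _ => hI1 i κ)
    have e3 : ∑ κ ∈ ix d m, cf m κ * ∑ i, (SI u (at1 ρ ρ1 i) (a κ)).re =
        ∑ i : Fin N, ∫ x, PP (XX 0 v x) ^ m * ∏ j, at1 ρ ρ1 i j (lin u x j) := by
      simp_rw [Finset.mul_sum]
      rw [Finset.sum_comm]
      refine sum_congr rfl fun i _ => ?_
      exact (akt_zero hu (at1 φ h1 i) (at1 ρ ρ1 i) (akt_fp φ ρ h1 ρ1 hφ hh1 i) v m).symm
    have e4 : ∑ i : Fin N, ∫ x, PP (XX 0 v x) ^ m * ∏ j, at1 ρ ρ1 i j (lin u x j) ≤ ∑ _i : Fin N, κ1 * S := by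
      refine sum_le_sum fun i _ => ?_
      rw [hS, ← integral_const_mul]
      refine integral_mono (akt_intPP 0 v m _ (akt_int hu _ _ (akt_fp φ ρ h1 ρ1 hφ hh1 i)))
        ((akt_intPP 0 v m _ hwint).const_mul _) fun x => ?_
      show PP (XX 0 v x) ^ m * ∏ j, at1 ρ ρ1 i j (lin u x j) ≤ κ1 * (PP (XX 0 v x) ^ m * w x)
      have h4 : ∏ j, at1 ρ ρ1 i j (lin u x j) ≤ κ1 * w x := by
        rw [akt_at1_prod, hw]
        show ρ1 (lin u x i) * _ ≤ κ1 * ∏ i, ρ (lin u x i)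
        rw [akt_prod ρ i (lin u x), ← mul_assoc]
        exact mul_le_mul_of_nonneg_right (hκ1 _) (prod_nonneg fun j _ => hρ0 _)
      calc PP (XX 0 v x) ^ m * ∏ j, at1 ρ ρ1 i j (lin u x j) ≤ PP (XX 0 v x) ^ m * (κ1 * w x) :=
            mul_le_mul_of_nonneg_left h4 (pow_nonneg (PP_nonneg _) m)
        _ = _ := by ring
    calc (1 - θ) * B ≤ _ := e1
      _ ≤ _ := e2
      _ = _ := e3
      _ ≤ _ := e4
      _ = N * κ1 * S := by
        rw [sum_const, card_univ, Fintype.card_fin, nsmul_eq_mul]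
        ring
  have hBS : B ≤ p * S := by
    have e1 : (1 - θ) * B ≤ (1 - θ) * (p * S) := by
      refine hB1.trans ?_
      calc N * κ1 * S ≤ p * (1 - θ) * S := mul_le_mul_of_nonneg_right hp hS0
        _ = _ := by ring
    exact le_of_mul_le_mul_left e1 hθ
  have hSle : (1 - p) * S ≤ cf m κ0 * W := by
    have : S ≤ cf m κ0 * W + p * S := by
      rw [hSB] at hBS ⊢
      linarith
    linarith
  -- lower bound for the average at x0
  set J : ℝ := ∫ x, PP (XX x0 v x) ^ m * w x with hJ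
  have hJlow : cf m κ0 * W - B ≤ J := by
    have h3 := akt_lower hu (fun _ => φ) (fun _ => ρ) (fun _ => hφ) x0 v m
    rw [hSI0] at h3
    refine le_trans ?_ h3
    rw [hB]
    refine sub_le_sub_left ?_ _
    refine sum_le_sum fun κ _ => mul_le_mul_of_nonneg_left (hInorm κ) (cf_nonneg m κ)
  -- upper bound
  have hρ20 : ∀ t, 0 ≤ ρ2 t := fun t => (mul_nonneg (hE20 t) (hρ0 t)).trans (hE2 t)
  have hSI2 : ∀ (i : Fin N) (κ : Fin d → ℕ), ‖SI u (at1 ρ ρ2 i) (a κ)‖ ≤ κ2 * (I κ).re := by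
    intro i κ
    have h3 := mon hu (at1 φ h2 i) (at1 ρ ρ2 i) (at1 φ (fun x => κ2 * φ x) i) (at1 ρ (fun t => κ2 * ρ t) i)
      (akt_fp φ ρ h2 ρ2 hφ hh2 i) (akt_fp φ ρ _ _ hφ (hφ.smul κ2) i) (fun j x => by
        unfold at1
        split_ifs
        · exact hκ2 x
        · exact (abs_of_nonneg (hφ0 x)).le) (a κ)
    refine h3.trans (le_of_eq ?_)
    have h4 : SI u (at1 ρ (fun t => κ2 * ρ t) i) (a κ) = (κ2 : ℂ) * I κ := by
      rw [hI]
      unfold SI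
      rw [← integral_const_mul]
      congr 1
      funext x
      rw [akt_at1_prod, akt_prod ρ i (lin u x)]
      push_cast
      ring
    rw [h4, Complex.re_ofReal_mul]
  have hJ2 : ∀ i : Fin N, ∫ x, PP (XX x0 v x) ^ m * ∏ j, at1 ρ ρ2 i j (lin u x j) ≤ κ2 * S := by
    intro i
    refine (akt_upper hu (at1 φ h2 i) (at1 ρ ρ2 i) (akt_fp φ ρ h2 ρ2 hφ hh2 i) x0 v m).trans ?_
    rw [hSsum, Finset.mul_sum]
    refine sum_le_sum fun κ _ => ?_
    calc cf m κ * ‖SI u (at1 ρ ρ2 i) (fr v m κ)‖ ≤ cf m κ * (κ2 * (I κ).re) :=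
          mul_le_mul_of_nonneg_left (hSI2 i κ) (cf_nonneg m κ)
      _ = _ := by ring
  have hJup : J ≤ q ^ m * W + N * κ2 / (1 - θ2) * S := by
    have e1 : J ≤ ∫ x, (q ^ m * w x + (1 / (1 - θ2)) * ∑ i, PP (XX x0 v x) ^ m * ∏ j, at1 ρ ρ2 i j (lin u x j)) := by
      rw [hJ]
      have hi : ∀ i : Fin N, Integrable fun x => PP (XX x0 v x) ^ m * ∏ j, at1 ρ ρ2 i j (lin u x j) := fun i =>
        akt_intPP x0 v m _ (akt_int hu _ _ (akt_fp φ ρ h2 ρ2 hφ hh2 i))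
      refine integral_mono (akt_intPP x0 v m _ hwint)
        ((hwint.const_mul _).add ((integrable_finsetSum _ fun i _ => hi i).const_mul _)) fun x => ?_
      show PP (XX x0 v x) ^ m * w x ≤
        q ^ m * w x + (1 / (1 - θ2)) * ∑ i, PP (XX x0 v x) ^ m * ∏ j, at1 ρ ρ2 i j (lin u x j)
      have hP0 : 0 ≤ PP (XX x0 v x) ^ m := pow_nonneg (PP_nonneg _) m
      have h5 : ∀ i : Fin N, 0 ≤ ∏ j, at1 ρ ρ2 i j (lin u x j) := by
        intro i
        rw [akt_at1_prod]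
        exact mul_nonneg (hρ20 _) (prod_nonneg fun j _ => hρ0 _)
      by_cases hx : lin u x ∈ T
      · have h6 : PP (XX x0 v x) ^ m ≤ q ^ m := pow_le_pow_left₀ (PP_nonneg _) (hq _ ⟨x, hx, rfl⟩) m
        have h7 : 0 ≤ (1 / (1 - θ2)) * ∑ i, PP (XX x0 v x) ^ m * ∏ j, at1 ρ ρ2 i j (lin u x j) :=
          mul_nonneg (by positivity) (sum_nonneg fun i _ => mul_nonneg hP0 (h5 i))
        have h8 := mul_le_mul_of_nonneg_right h6 (hw0 x)
        linarith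
      · have h6 : (1 - θ2) * w x ≤ ∑ i, ∏ j, at1 ρ ρ2 i j (lin u x j) := by
          have h7 := hTE _ hx
          have h8 : (1 - θ2) * w x ≤ (∑ i, E2 (lin u x i)) * w x :=
            mul_le_mul_of_nonneg_right (by linarith) (hw0 x)
          refine h8.trans ?_
          rw [Finset.sum_mul]
          refine sum_le_sum fun i _ => ?_
          rw [akt_at1_prod, hw]
          show E2 (lin u x i) * ∏ i, ρ (lin u x i) ≤ _
          rw [akt_prod ρ i (lin u x), ← mul_assoc]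
          exact mul_le_mul_of_nonneg_right (hE2 _) (prod_nonneg fun j _ => hρ0 _)
        have h9 : PP (XX x0 v x) ^ m * w x ≤
            (1 / (1 - θ2)) * ∑ i, PP (XX x0 v x) ^ m * ∏ j, at1 ρ ρ2 i j (lin u x j) := by
          rw [← Finset.mul_sum, one_div, ← div_eq_inv_mul, le_div_iff₀ hθ2]
          calc PP (XX x0 v x) ^ m * w x * (1 - θ2) = PP (XX x0 v x) ^ m * ((1 - θ2) * w x) := by ring
            _ ≤ _ := mul_le_mul_of_nonneg_left h6 hP0
        have h10 : 0 ≤ q ^ m * w x := mul_nonneg (pow_nonneg hq0 m) (hw0 x)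
        linarith
    refine e1.trans ?_
    have hi : ∀ i : Fin N, Integrable fun x => PP (XX x0 v x) ^ m * ∏ j, at1 ρ ρ2 i j (lin u x j) := fun i =>
      akt_intPP x0 v m _ (akt_int hu _ _ (akt_fp φ ρ h2 ρ2 hφ hh2 i))
    rw [integral_add (hwint.const_mul _) ((integrable_finsetSum _ fun i _ => hi i).const_mul _),
      integral_const_mul, integral_const_mul, integral_finsetSum _ fun i _ => hi i]
    refine add_le_add le_rfl ?_
    have e2 : ∑ i : Fin N, ∫ x, PP (XX x0 v x) ^ m * ∏ j, at1 ρ ρ2 i j (lin u x j) ≤ N * (κ2 * S) := by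
      refine (sum_le_sum fun i _ => hJ2 i).trans (le_of_eq ?_)
      rw [sum_const, card_univ, Fintype.card_fin, nsmul_eq_mul]
    calc (1 / (1 - θ2)) * ∑ i : Fin N, ∫ x, PP (XX x0 v x) ^ m * ∏ j, at1 ρ ρ2 i j (lin u x j) ≤
          (1 / (1 - θ2)) * (N * (κ2 * S)) := mul_le_mul_of_nonneg_left e2 (by positivity)
      _ = _ := by ring
  -- conclusion
  have hfin : cf m κ0 * W ≤ q ^ m * W + lam * (cf m κ0 * W) := by
    have e1 : cf m κ0 * W ≤ q ^ m * W + c * S := by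
      have : c * S = p * S + N * κ2 / (1 - θ2) * S := by rw [hc]; ring
      linarith
    have e2 : c * S ≤ lam * (cf m κ0 * W) := by
      calc c * S ≤ max c 0 * S := mul_le_mul_of_nonneg_right (le_max_left _ _) hS0
        _ = lam * ((1 - p) * S) := by
          rw [hlam]
          field_simp
        _ ≤ lam * (cf m κ0 * W) := by
          refine mul_le_mul_of_nonneg_left hSle ?_
          rw [hlam]
          exact div_nonneg (le_max_right _ _) h1p.le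
    linarith
  have hfin2 : cf m κ0 * (1 - lam) ≤ q ^ m := by
    have : cf m κ0 * (1 - lam) * W ≤ q ^ m * W := by linarith
    exact le_of_mul_le_mul_right this hWpos
  calc (1 / (2 * (m : ℝ))) ^ d * (1 - lam) ≤ cf m κ0 * (1 - lam) :=
        mul_le_mul_of_nonneg_right (cf_lower m hm) (by linarith)
    _ ≤ q ^ m := hfin2

end Pool.Agent.Lib.MP_d2370c_gt.SQ
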