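import Pool.Agent.Lib.MP_d2370c_gt.SQ.Defs

/-!
# The tent function convolved with itself

`cv tent tent 0 = 2 / 3`, the bounds `2 / 3 * tent s ≤ cv tent tent s ≤ 2 / 3`, and vanishing for `2 ≤ |s|`.
-/

set_option autoImplicit false

open Finset MeasureTheory Filter Topology

namespace Pool.Agent.Lib.MP_d2370c_gt.SQ

open Pool.Agent.Lib.MP_d2370c_gt

namespace TT

theorem tent_cont : Continuous tent := by
  unfold tent
  fun_prop

theorem tent_nonneg (t : ℝ) : 0 ≤ tent t := le_max_left _ _

theorem tent_out (t : ℝ) (h : 1 ≤ |t|) : tent t = 0 := by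
  unfold tent
  exact max_eq_left (by linarith)

theorem tent_in (t : ℝ) (h : |t| ≤ 1) : tent t = 1 - |t| := by
  unfold tent
  exact max_eq_right (by linarith)

theorem tent_neg (t : ℝ) : tent (-t) = tent t := by
  unfold tent
  rw [abs_neg]

theorem prod_cont (s : ℝ) : Continuous fun r => tent (s - r) * tent r :=
  (tent_cont.comp (continuous_const.sub continuous_id)).mul tent_cont

theorem prod_int (s : ℝ) : Integrable fun r => tent (s - r) * tent r := by
  refine (prod_cont s).integrable_of_hasCompactSupport ?_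
  refine HasCompactSupport.intro (K := Set.Icc (-1 : ℝ) 1) isCompact_Icc ?_
  intro x hx
  have : 1 ≤ |x| := by
    by_contra h
    push Not at h
    rw [abs_lt] at h
    exact hx ⟨h.1.le, h.2.le⟩
  rw [tent_out x this, mul_zero]

theorem sq_int : Integrable fun r => tent r ^ 2 := by
  have h := prod_int 0
  refine h.congr (Filter.Eventually.of_forall fun r => ?_)
  show tent (0 - r) * tent r = tent r ^ 2
  rw [zero_sub, tent_neg]
  ring

/-- the integral of a quadratic polynomial -/
theorem quad (a b c x y : ℝ) :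
    ∫ r in x..y, (a + b * r + c * r ^ 2) = (a * y + b / 2 * y ^ 2 + c / 3 * y ^ 3) - (a * x + b / 2 * x ^ 2 + c / 3 * x ^ 3) := by
  refine intervalIntegral.integral_eq_sub_of_hasDerivAt (f := fun r => a * r + b / 2 * r ^ 2 + c / 3 * r ^ 3) ?_ ?_
  · intro r _
    have h1 : HasDerivAt (fun r : ℝ => a * r) (a * 1) r := (hasDerivAt_id r).const_mul a
    have h2 : HasDerivAt (fun r : ℝ => b / 2 * r ^ 2) (b / 2 * (((2 : ℕ) : ℝ) * r ^ (2 - 1))) r :=
      (hasDerivAt_pow 2 r).const_mul (b / 2)
    have h3 : HasDerivAt (fun r : ℝ => c / 3 * r ^ 3) (c / 3 * (((3 : ℕ) : ℝ) * r ^ (3 - 1))) r :=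
      (hasDerivAt_pow 3 r).const_mul (c / 3)
    have h4 := (h1.add h2).add h3
    have e : a * 1 + b / 2 * (((2 : ℕ) : ℝ) * r ^ (2 - 1)) + c / 3 * (((3 : ℕ) : ℝ) * r ^ (3 - 1)) = a + b * r + c * r ^ 2 := by
      norm_num
      ring
    rw [e] at h4
    exact h4
  · exact Continuous.intervalIntegrable (by fun_prop) _ _

theorem sq_val : ∫ r, tent r ^ 2 = 2 / 3 := by
  have h1 : ∫ r, tent r ^ 2 = ∫ r in Set.Icc (-1 : ℝ) 1, tent r ^ 2 := by
    symm
    refine setIntegral_eq_integral_of_forall_compl_eq_zero ?_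
    intro x hx
    have : 1 ≤ |x| := by
      by_contra h
      push Not at h
      rw [abs_lt] at h
      exact hx ⟨h.1.le, h.2.le⟩
    rw [tent_out x this]
    norm_num
  rw [h1, integral_Icc_eq_integral_Ioc, ← intervalIntegral.integral_of_le (by norm_num : (-1 : ℝ) ≤ 1)]
  have hc : ∀ x y : ℝ, IntervalIntegrable (fun r => tent r ^ 2) volume x y := fun x y =>
    (tent_cont.pow 2).intervalIntegrable x y
  rw [← intervalIntegral.integral_add_adjacent_intervals (hc (-1) 0) (hc 0 1)]
  have h2 : ∫ r in (-1 : ℝ)..0, tent r ^ 2 = ∫ r in (-1 : ℝ)..0, (1 + 2 * r + 1 * r ^ 2) := by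
    refine intervalIntegral.integral_congr fun r hr => ?_
    rw [Set.uIcc_of_le (by norm_num)] at hr
    show tent r ^ 2 = 1 + 2 * r + 1 * r ^ 2
    rw [tent_in r (by rw [abs_of_nonpos hr.2]; linarith [hr.1]), abs_of_nonpos hr.2]
    ring
  have h3 : ∫ r in (0 : ℝ)..1, tent r ^ 2 = ∫ r in (0 : ℝ)..1, (1 + (-2) * r + 1 * r ^ 2) := by
    refine intervalIntegral.integral_congr fun r hr => ?_
    rw [Set.uIcc_of_le (by norm_num)] at hr
    show tent r ^ 2 = 1 + (-2) * r + 1 * r ^ 2
    rw [tent_in r (by rw [abs_of_nonneg hr.1]; exact hr.2), abs_of_nonneg hr.1]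
    ring
  rw [h2, h3, quad, quad]
  norm_num

theorem sq_int' (s : ℝ) : Integrable fun r => tent (s - r) ^ 2 :=
  sq_int.comp_sub_left s

theorem sq_val' (s : ℝ) : ∫ r, tent (s - r) ^ 2 = 2 / 3 := by
  rw [integral_sub_left_eq_self (fun r => tent r ^ 2) volume s]
  exact sq_val

theorem cv_nn (s : ℝ) : 0 ≤ cv tent tent s :=
  integral_nonneg fun r => mul_nonneg (tent_nonneg _) (tent_nonneg _)

theorem cv_neg (s : ℝ) : cv tent tent (-s) = cv tent tent s := by
  unfold cv
  rw [← integral_neg_eq_self (fun r => tent (s - r) * tent r) volume]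
  refine integral_congr_ae (Filter.Eventually.of_forall fun r => ?_)
  show tent (-s - r) * tent r = tent (s - -r) * tent (-r)
  rw [tent_neg r, ← tent_neg (s - -r)]
  congr 2
  ring

/-- the lower bound for `0 ≤ s ≤ 1` -/
theorem ge_of (s : ℝ) (h0 : 0 ≤ s) (h1 : s ≤ 1) : 2 / 3 - s ^ 2 + s ^ 3 / 2 ≤ cv tent tent s := by
  have hc : ∀ x y : ℝ, IntervalIntegrable (fun r => tent (s - r) * tent r) volume x y := fun x y =>
    (prod_cont s).intervalIntegrable x y
  have hle : ∫ r in Set.Ioc (s - 1) 1, tent (s - r) * tent r ≤ cv tent tent s := by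
    refine setIntegral_le_integral (prod_int s) (Filter.Eventually.of_forall fun r => ?_)
    exact mul_nonneg (tent_nonneg _) (tent_nonneg _)
  refine le_trans (le_of_eq ?_) hle
  rw [← intervalIntegral.integral_of_le (by linarith : s - 1 ≤ 1)]
  rw [← intervalIntegral.integral_add_adjacent_intervals (hc (s - 1) 0) (hc 0 1),
    ← intervalIntegral.integral_add_adjacent_intervals (hc 0 s) (hc s 1)]
  have e1 : ∫ r in (s - 1)..0, tent (s - r) * tent r = ∫ r in (s - 1)..0, ((1 - s) + (2 - s) * r + 1 * r ^ 2) := by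
    refine intervalIntegral.integral_congr fun r hr => ?_
    rw [Set.uIcc_of_le (by linarith)] at hr
    show tent (s - r) * tent r = (1 - s) + (2 - s) * r + 1 * r ^ 2
    rw [tent_in r (by rw [abs_of_nonpos hr.2]; linarith [hr.1]), abs_of_nonpos hr.2,
      tent_in (s - r) (by rw [abs_of_nonneg (by linarith [hr.2])]; linarith [hr.1]),
      abs_of_nonneg (by linarith [hr.2])]
    ring
  have e2 : ∫ r in (0 : ℝ)..s, tent (s - r) * tent r = ∫ r in (0 : ℝ)..s, ((1 - s) + s * r + (-1) * r ^ 2) := by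
    refine intervalIntegral.integral_congr fun r hr => ?_
    rw [Set.uIcc_of_le h0] at hr
    show tent (s - r) * tent r = (1 - s) + s * r + (-1) * r ^ 2
    rw [tent_in r (by rw [abs_of_nonneg hr.1]; linarith [hr.2]), abs_of_nonneg hr.1,
      tent_in (s - r) (by rw [abs_of_nonneg (by linarith [hr.2])]; linarith [hr.1]),
      abs_of_nonneg (by linarith [hr.2])]
    ring
  have e3 : ∫ r in s..1, tent (s - r) * tent r = ∫ r in s..1, ((1 + s) + (-(2 + s)) * r + 1 * r ^ 2) := by
    refine intervalIntegral.integral_congr fun r hr => ?_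
    rw [Set.uIcc_of_le h1] at hr
    show tent (s - r) * tent r = (1 + s) + (-(2 + s)) * r + 1 * r ^ 2
    have hr0 : 0 ≤ r := h0.trans hr.1
    rw [tent_in r (by rw [abs_of_nonneg hr0]; exact hr.2), abs_of_nonneg hr0,
      tent_in (s - r) (by rw [abs_of_nonpos (by linarith [hr.1])]; linarith [hr.2]),
      abs_of_nonpos (by linarith [hr.1])]
    ring
  rw [e1, e2, e3, quad, quad, quad]
  ring

end TT

open TT

theorem tt_zero : cv tent tent 0 = 2 / 3 := by
  rw [← sq_val]
  unfold cv
  refine integral_congr_ae (Filter.Eventually.of_forall fun r => ?_)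
  show tent (0 - r) * tent r = tent r ^ 2
  rw [zero_sub, tent_neg]
  ring

theorem tt_ge (s : ℝ) : 2 / 3 * tent s ≤ cv tent tent s := by
  have key : ∀ s : ℝ, 0 ≤ s → 2 / 3 * tent s ≤ cv tent tent s := by
    intro s h0
    rcases le_total s 1 with h1 | h1
    · refine le_trans ?_ (ge_of s h0 h1)
      rw [tent_in s (by rw [abs_of_nonneg h0]; exact h1), abs_of_nonneg h0]
      nlinarith [mul_nonneg h0 (sq_nonneg (s - 1)), mul_nonneg h0 h0]
    · rw [tent_out s (by rw [abs_of_nonneg h0]; exact h1), mul_zero]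
      exact cv_nn s
  rcases le_total 0 s with h | h
  · exact key s h
  · have := key (-s) (by linarith)
    rwa [tent_neg, cv_neg] at this

theorem tt_out (s : ℝ) (hs : 2 ≤ |s|) : cv tent tent s = 0 := by
  unfold cv
  refine integral_eq_zero_of_ae (Filter.Eventually.of_forall fun r => ?_)
  show tent (s - r) * tent r = 0
  rcases le_total 1 |r| with h | h
  · rw [tent_out r h, mul_zero]
  · have : 1 ≤ |s - r| := by
      have h2 : |s| ≤ |s - r| + |r| := by
        have := abs_add_le (s - r) r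
        rwa [sub_add_cancel] at this
      linarith
    rw [tent_out _ this, zero_mul]

theorem tt_le (s : ℝ) : cv tent tent s ≤ 2 / 3 := by
  have h1 : cv tent tent s ≤ ∫ r, (1 / 2 * tent (s - r) ^ 2 + 1 / 2 * tent r ^ 2) := by
    refine integral_mono (prod_int s) (((sq_int' s).const_mul (1 / 2)).add (sq_int.const_mul (1 / 2))) ?_
    intro r
    show tent (s - r) * tent r ≤ 1 / 2 * tent (s - r) ^ 2 + 1 / 2 * tent r ^ 2
    nlinarith [sq_nonneg (tent (s - r) - tent r)]
  rw [integral_add ((sq_int' s).const_mul (1 / 2)) (sq_int.const_mul (1 / 2)), integral_const_mul, integral_const_mul,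
    sq_val', sq_val] at h1
  linarith

end Pool.Agent.Lib.MP_d2370c_gt.SQ
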