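import Mathlib
import Pool.Agent.Lib.MP_d2370c_gt.SQ.Defs

/-!
# The tent function and the kernel of Fejer
-/

set_option autoImplicit false

open MeasureTheory Set FourierTransform

namespace Pool.Agent.Lib.MP_d2370c_gt.SQ

open Pool.Agent.Lib.MP_d2370c_gt

private theorem tn_cont : Continuous tent := by
  unfold tent
  exact continuous_const.max (by fun_prop)

private theorem tn_out (x : ℝ) (hx : 1 ≤ |x|) : tent x = 0 := by
  unfold tent
  exact max_eq_left (by linarith)

private theorem tn_neg (x : ℝ) : tent (-x) = tent x := by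
  unfold tent
  rw [abs_neg]

private theorem tn_mem (x : ℝ) (h0 : 0 ≤ x) (h1 : x ≤ 1) : tent x = 1 - x := by
  unfold tent
  rw [abs_of_nonneg h0, max_eq_right (by linarith)]

private theorem tn_supp : HasCompactSupport tent := by
  refine HasCompactSupport.intro (isCompact_Icc (a := (-1 : ℝ)) (b := 1)) fun u hu => ?_
  apply tn_out
  by_contra hcon
  push Not at hcon
  exact hu (abs_le.mp hcon.le)

private theorem tn_int : Integrable tent := tn_cont.integrable_of_hasCompactSupport tn_supp

private theorem fj_cont : Continuous fejer := by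
  unfold fejer
  exact (Real.continuous_sinc.comp (by fun_prop)).pow 2

private theorem fj_neg (t : ℝ) : fejer (-t) = fejer t := by
  unfold fejer
  rw [mul_neg, Real.sinc_neg]

private theorem fj_nonneg (t : ℝ) : 0 ≤ fejer t := sq_nonneg _

private theorem fj_of_ne (t : ℝ) (ht : t ≠ 0) :
    fejer t = Real.sin (Real.pi * t) ^ 2 / (Real.pi * t) ^ 2 := by
  unfold fejer
  rw [Real.sinc_of_ne_zero (mul_ne_zero Real.pi_pos.ne' ht), div_pow]

private theorem fj_le (t : ℝ) : fejer t ≤ 2 * (1 + t ^ 2)⁻¹ := by
  by_cases ht : |t| ≤ 1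
  · have h1 : fejer t ≤ 1 := by
      unfold fejer
      have h2 := Real.abs_sinc_le_one (Real.pi * t)
      rw [← sq_abs]
      nlinarith [abs_nonneg (Real.sinc (Real.pi * t))]
    have h3 : t ^ 2 ≤ 1 := by rw [← sq_abs]; nlinarith [abs_nonneg t]
    have h4 : 1 ≤ 2 * (1 + t ^ 2)⁻¹ := by
      rw [inv_eq_one_div, ← mul_div_assoc, mul_one, le_div_iff₀ (by positivity)]
      linarith
    linarith
  · push Not at ht
    have h0 : t ≠ 0 := by
      rintro rfl
      simp at ht
      linarith
    have h1 : 1 < t ^ 2 := by rw [← sq_abs]; nlinarith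
    have hpi : 3 < Real.pi := Real.pi_gt_three
    rw [fj_of_ne t h0]
    have h5 : Real.sin (Real.pi * t) ^ 2 ≤ 1 := by
      have := Real.sin_sq_add_cos_sq (Real.pi * t)
      nlinarith [sq_nonneg (Real.cos (Real.pi * t))]
    have h6 : t ^ 2 ≤ (Real.pi * t) ^ 2 := by
      rw [mul_pow]
      have : (1 : ℝ) ≤ Real.pi ^ 2 := by nlinarith
      nlinarith
    calc Real.sin (Real.pi * t) ^ 2 / (Real.pi * t) ^ 2 ≤ 1 / t ^ 2 := by gcongr
      _ ≤ 2 * (1 + t ^ 2)⁻¹ := by
        rw [inv_eq_one_div, ← mul_div_assoc, mul_one, div_le_div_iff₀ (by linarith) (by linarith)]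
        linarith

private theorem fj_int : Integrable fejer := by
  refine ((integrable_inv_one_add_sq).const_mul 2).mono' fj_cont.aestronglyMeasurable ?_
  filter_upwards with t
  rw [Real.norm_eq_abs, abs_of_nonneg (fj_nonneg t)]
  exact fj_le t

private theorem tn_half (t : ℝ) :
    ∫ x in (0 : ℝ)..1, 2 * Real.cos (2 * Real.pi * x * t) * (1 - x) = fejer t := by
  by_cases ht : t = 0
  · subst ht
    have h1 : fejer 0 = 1 := by unfold fejer; simp
    rw [h1]
    have h2 : ∀ x : ℝ, 2 * Real.cos (2 * Real.pi * x * 0) * (1 - x) = 2 - 2 * x := by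
      intro x
      rw [mul_zero, Real.cos_zero]
      ring
    simp_rw [h2]
    have hder : ∀ x ∈ uIcc (0 : ℝ) 1, HasDerivAt (fun x : ℝ => 2 * x - x ^ 2) (2 - 2 * x) x := by
      intro x _
      have := ((hasDerivAt_id x).const_mul 2).sub (hasDerivAt_pow 2 x)
      refine this.congr_deriv ?_
      simp
    rw [intervalIntegral.integral_eq_sub_of_hasDerivAt hder (by
      apply Continuous.intervalIntegrable
      fun_prop)]
    norm_num
  · set c : ℝ := 2 * (Real.pi * t) with hc
    have hpi := Real.pi_pos
    have hc0 : c ≠ 0 := by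
      rw [hc]
      exact mul_ne_zero two_ne_zero (mul_ne_zero hpi.ne' ht)
    have h2 : ∀ x : ℝ, 2 * Real.cos (2 * Real.pi * x * t) * (1 - x) = 2 * ((1 - x) * Real.cos (c * x)) := by
      intro x
      have : 2 * Real.pi * x * t = c * x := by rw [hc]; ring
      rw [this]
      ring
    simp_rw [h2]
    have hder : ∀ x ∈ uIcc (0 : ℝ) 1, HasDerivAt
        (fun x : ℝ => 2 * ((1 - x) * Real.sin (c * x) / c - Real.cos (c * x) / c ^ 2))
        (2 * ((1 - x) * Real.cos (c * x))) x := by
      intro x _
      have h6 : HasDerivAt (fun u : ℝ => c * u) c x := by simpa using (hasDerivAt_id x).const_mul c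
      have hl : HasDerivAt (fun u : ℝ => 1 - u) (-1) x := by
        simpa using (hasDerivAt_id x).const_sub 1
      have h5 := (((hl.mul h6.sin).div_const c).sub (h6.cos.div_const (c ^ 2))).const_mul 2
      refine h5.congr_deriv ?_
      field_simp
      ring
    rw [intervalIntegral.integral_eq_sub_of_hasDerivAt hder (by
      apply Continuous.intervalIntegrable
      fun_prop)]
    rw [fj_of_ne t ht, mul_one, hc, Real.cos_two_mul, Real.cos_sq']
    simp only [mul_zero, Real.cos_zero, Real.sin_zero, sub_self, zero_mul, zero_div, zero_sub]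
    have hpt : Real.pi * t ≠ 0 := mul_ne_zero hpi.ne' ht
    field_simp
    ring

private theorem tn_fwd (t : ℝ) : ∫ x, (tent x : ℂ) * ee (x * t) = (fejer t : ℂ) := by
  set h : ℝ → ℂ := fun v => (tent v : ℂ) * ee (v * t) with hh
  have hcont : Continuous h := by
    rw [hh]
    exact (Complex.continuous_ofReal.comp tn_cont).mul (continuous_ee.comp (by fun_prop))
  have h1 : ∫ v, h v = ∫ v in (-1 : ℝ)..1, h v := by
    symm
    apply intervalIntegral.integral_eq_integral_of_support_subset
    intro v hv
    rw [Function.mem_support] at hv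
    by_contra hcon
    apply hv
    have : tent v = 0 := by
      apply tn_out
      rw [mem_Ioc, not_and_or] at hcon
      rcases hcon with h3 | h3
      · rw [abs_of_nonpos (by linarith)]; linarith
      · push Not at h3
        rw [abs_of_pos (by linarith)]; linarith
    rw [hh]
    simp [this]
  have h2 : ∫ v in (-1 : ℝ)..1, h v = ∫ v in (0 : ℝ)..1, (h (-v) + h v) := by
    have hcn : Continuous fun v : ℝ => h (-v) := hcont.comp continuous_neg
    rw [intervalIntegral.integral_add hcn.continuousOn.intervalIntegrable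
      hcont.continuousOn.intervalIntegrable]
    have h3 : ∫ v in (0 : ℝ)..1, h (-v) = ∫ v in (-1 : ℝ)..0, h v := by
      have := intervalIntegral.integral_comp_neg (a := (0 : ℝ)) (b := 1) h
      simp only [neg_zero] at this
      exact this
    rw [h3, intervalIntegral.integral_add_adjacent_intervals] <;>
      exact hcont.continuousOn.intervalIntegrable
  have h4 : ∫ v in (0 : ℝ)..1, (h (-v) + h v) = ∫ v in (0 : ℝ)..1,
      ((2 * Real.cos (2 * Real.pi * v * t) * (1 - v) : ℝ) : ℂ) := by
    apply intervalIntegral.integral_congr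
    intro v hv
    rw [uIcc_of_le zero_le_one, mem_Icc] at hv
    simp only [hh]
    rw [tn_neg, tn_mem v hv.1 hv.2, ← mul_add]
    have h5 : ee (-v * t) + ee (v * t) = ((2 * Real.cos (2 * Real.pi * v * t) : ℝ) : ℂ) := by
      unfold ee
      have e1 : (2 * (Real.pi : ℂ) * ((-v * t : ℝ) : ℂ) * Complex.I) = (-((2 * Real.pi * v * t : ℝ) : ℂ)) * Complex.I := by
        push_cast; ring
      have e2 : (2 * (Real.pi : ℂ) * ((v * t : ℝ) : ℂ) * Complex.I) = ((2 * Real.pi * v * t : ℝ) : ℂ) * Complex.I := by
        push_cast; ring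
      rw [e1, e2, add_comm, ← Complex.two_cos, Complex.ofReal_mul 2 (Real.cos _), Complex.ofReal_cos]
      push_cast
      ring
    rw [h5]
    push_cast
    ring
  rw [h1, h2, h4, intervalIntegral.integral_ofReal, tn_half t]

private theorem tn_four (w : ℝ) : 𝓕 (fun u => (tent u : ℂ)) w = (fejer w : ℂ) := by
  rw [Real.fourier_real_eq_integral_exp_smul, ← fj_neg w, ← tn_fwd (-w)]
  apply integral_congr_ae
  filter_upwards with v
  rw [smul_eq_mul, mul_comm]
  congr 1
  unfold ee
  congr 1
  push_cast
  ring

theorem FP_tent : FP tent fejer where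
  contf := tn_cont
  contF := fj_cont
  intf := tn_int
  intF := fj_int
  fwd := tn_fwd
  bwd := by
    intro x
    have hF : 𝓕 (fun u => (tent u : ℂ)) = fun w => (fejer w : ℂ) := funext tn_four
    have hint : Integrable (𝓕 (fun u => (tent u : ℂ))) := by rw [hF]; exact fj_int.ofReal
    have hcont : Continuous (fun u => (tent u : ℂ)) := Complex.continuous_ofReal.comp tn_cont
    have h1 := congrFun (hcont.fourierInv_fourier_eq tn_int.ofReal hint) x
    rw [Real.fourierInv_eq', hF] at h1
    rw [← h1]
    apply integral_congr_ae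
    filter_upwards with w
    rw [smul_eq_mul, mul_comm]
    congr 1
    unfold ee
    congr 1
    have : inner ℝ w x = x * w := by simp
    rw [this]
    push_cast
    ring

end Pool.Agent.Lib.MP_d2370c_gt.SQ
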