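import Pool.Agent.Lib.MP_d2370c_gt.SQ.Conv
import Pool.Agent.Lib.MP_d2370c_gt.SQ.Tent
import Pool.Agent.Lib.MP_d2370c_gt.SQ.TT

/-!
# The window `KK`, its transform `bb`, and the majorants `b1`, `K1`
-/

set_option autoImplicit false

open Finset MeasureTheory

namespace Pool.Agent.Lib.MP_d2370c_gt.SQ

open Pool.Agent.Lib.MP_d2370c_gt

theorem base_tent_nonneg (t : ℝ) : 0 ≤ tent t := le_max_left _ _

theorem base_fejer_nonneg (x : ℝ) : 0 ≤ fejer x := sq_nonneg _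

theorem FP_bb : FP bb KK := by
  have h := ((FP_tent.conv FP_tent).symm.scale (1 / 2) (by norm_num)).smul (3 / 2)
  have e1 : (fun x : ℝ => 3 / 2 * (1 / 2 * (fejer (1 / 2 * x) * fejer (1 / 2 * x)))) = bb := by
    funext x
    unfold bb
    have : (1 / 2 * x : ℝ) = x / 2 := by ring
    rw [this]
    ring
  have e2 : (fun t : ℝ => 3 / 2 * cv tent tent (t / (1 / 2))) = KK := by
    funext t
    unfold KK
    have : (t / (1 / 2) : ℝ) = 2 * t := by ring
    rw [this]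
  rw [← e1, ← e2]
  exact h

theorem FP_b1 : FP b1 K1 := by
  have h := (FP_tent.symm.scale (1 / 2) (by norm_num)).smul (6 / Real.pi ^ 2)
  have e1 : (fun x : ℝ => 6 / Real.pi ^ 2 * (1 / 2 * fejer (1 / 2 * x))) = b1 := by
    funext x
    unfold b1
    have : (1 / 2 * x : ℝ) = x / 2 := by ring
    rw [this]
    ring
  have e2 : (fun t : ℝ => 6 / Real.pi ^ 2 * tent (t / (1 / 2))) = K1 := by
    funext t
    unfold K1
    have : (t / (1 / 2) : ℝ) = 2 * t := by ring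
    rw [this]
  rw [← e1, ← e2]
  exact h

theorem bb_nonneg (x : ℝ) : 0 ≤ bb x := by
  unfold bb
  positivity

theorem KK_nonneg (t : ℝ) : 0 ≤ KK t := by
  unfold KK
  exact mul_nonneg (by norm_num) (cv_nonneg base_tent_nonneg base_tent_nonneg _)

theorem b1_nonneg (x : ℝ) : 0 ≤ b1 x := by
  unfold b1
  exact mul_nonneg (by positivity) (base_fejer_nonneg _)

theorem K1_nonneg (t : ℝ) : 0 ≤ K1 t := by
  unfold K1
  exact mul_nonneg (by positivity) (base_tent_nonneg _)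

theorem KK_zero : KK 0 = 1 := by
  unfold KK
  rw [mul_zero, tt_zero]
  norm_num

theorem KK_le (t : ℝ) : KK t ≤ 1 := by
  unfold KK
  have := tt_le (2 * t)
  linarith

theorem KK_out (t : ℝ) (ht : 1 ≤ |t|) : KK t = 0 := by
  unfold KK
  rw [tt_out (2 * t) (by rw [abs_mul, abs_of_pos (by norm_num : (0 : ℝ) < 2)]; linarith), mul_zero]

theorem bb_zero_pos : 0 < bb 0 := by
  unfold bb fejer
  simp [Real.sinc_zero]

theorem bb_sq_le (x : ℝ) : x ^ 2 * bb x ≤ b1 x := by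
  unfold bb b1 fejer
  have hs : (Real.pi * (x / 2)) * Real.sinc (Real.pi * (x / 2)) = Real.sin (Real.pi * (x / 2)) := by
    by_cases h0 : Real.pi * (x / 2) = 0
    · rw [h0]
      simp
    · rw [Real.sinc_of_ne_zero h0, mul_div_cancel₀ _ h0]
  set s := Real.sinc (Real.pi * (x / 2)) with hsdef
  have h1 : ((Real.pi * (x / 2)) * s) ^ 2 ≤ 1 := by
    rw [hs]
    nlinarith [Real.sin_sq_add_cos_sq (Real.pi * (x / 2)), sq_nonneg (Real.cos (Real.pi * (x / 2)))]
  have hpi : (0 : ℝ) < Real.pi ^ 2 := by positivity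
  have h2 : x ^ 2 * s ^ 2 ≤ 4 / Real.pi ^ 2 := by
    rw [le_div_iff₀ hpi]
    nlinarith [h1]
  calc x ^ 2 * (3 / 4 * (s ^ 2) ^ 2) = 3 / 4 * s ^ 2 * (x ^ 2 * s ^ 2) := by ring
    _ ≤ 3 / 4 * s ^ 2 * (4 / Real.pi ^ 2) := mul_le_mul_of_nonneg_left h2 (by positivity)
    _ = 3 / Real.pi ^ 2 * s ^ 2 := by ring

theorem K1_le (t : ℝ) : K1 t ≤ 6 / Real.pi ^ 2 * KK t := by
  unfold K1 KK
  apply mul_le_mul_of_nonneg_left _ (by positivity)
  have := tt_ge (2 * t)
  linarith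

end Pool.Agent.Lib.MP_d2370c_gt.SQ
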