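import Pool.Agent.Lib.MP_d2370c_gt.SQ.Akt
import Pool.Agent.Lib.MP_d2370c_gt.SQ.Supp
import Pool.Agent.Lib.MP_d2370c_gt.SQ.Base

/-!
# MP_d2370c_gt, sections and projections: bodies between a section of the ball and of the cross-polytope

`akt` for `μ u`, `μ = 4 / 5`, kernel `φ = KK`, `ρ = bb`, `h = supp {∑ |lin u x i| ≤ N}`, `R = μ * N`,
`E` the indicator of `{1 ≤ |c|}`, `h1 = ρ1 = 0`, `p = 0`, `E2 t = t ^ 2 / (31 / 50 * N)`,
`T = {∑ t ^ 2 ≤ 31 / 50 * N}`.
-/

set_option autoImplicit false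

open Finset MeasureTheory Filter Topology

namespace Pool.Agent.Lib.MP_d2370c_gt.SQ

open Pool.Agent.Lib.MP_d2370c_gt

variable {n N d : ℕ}

private theorem bs_XX_sub (x0 : Fin d → ℝ) (v : Fin n → Fin d → ℝ) (x x' : Fin n → ℝ) (y : Fin d → ℝ) :
    ∑ i, (XX x0 v x i - XX x0 v x' i) * y i = ∑ k, x k * pr v y k + ∑ k, -x' k * pr v y k := by
  have h1 := sum_XX x0 v x y
  have h2 := sum_XX x0 v x' y
  have h3 : ∑ i, (XX x0 v x i - XX x0 v x' i) * y i =
      ∑ i, y i * XX x0 v x i - ∑ i, y i * XX x0 v x' i := by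
    rw [← Finset.sum_sub_distrib]
    exact Finset.sum_congr rfl fun i _ => by ring
  have h4 : ∑ k, -x' k * pr v y k = -∑ k, x' k * pr v y k := by
    rw [← Finset.sum_neg_distrib]
    exact Finset.sum_congr rfl fun i _ => by ring
  rw [h3, h1, h2, h4]
  ring

private theorem bs_lin_smul (u : Fin N → Fin n → ℝ) (c : ℝ) (x : Fin n → ℝ) (i : Fin N) :
    lin u (fun k => c * x k) i = c * lin u x i := by
  unfold lin
  rw [Finset.mul_sum]
  exact Finset.sum_congr rfl fun k _ => by ring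

private theorem bs_lin_mul (u : Fin N → Fin n → ℝ) (c : ℝ) (x : Fin n → ℝ) (i : Fin N) :
    lin (fun i k => c * u i k) x i = c * lin u x i := by
  unfold lin
  rw [Finset.mul_sum]
  exact Finset.sum_congr rfl fun k _ => by ring

private theorem bs_cont_lin (u : Fin N → Fin n → ℝ) (i : Fin N) :
    Continuous fun x : Fin n → ℝ => lin u x i := by
  unfold lin
  fun_prop

/-- points of `M C` -/
private theorem bs_le_supp {C : Set (Fin n → ℝ)} (hC : IsCompact C) {M : ℝ} (hM : 0 ≤ M) (a : Fin n → ℝ)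
    {x : Fin n → ℝ} (hx : ∃ w ∈ C, ∀ k, x k = M * w k) : ∑ k, x k * a k ≤ M * supp C a := by
  obtain ⟨w, hw, hxw⟩ := hx
  have h1 := le_supp hC a hw
  calc ∑ k, x k * a k = M * ∑ k, w k * a k := by
        rw [Finset.mul_sum]
        exact Finset.sum_congr rfl fun k _ => by rw [hxw k]; ring
    _ ≤ M * supp C a := mul_le_mul_of_nonneg_left h1 hM

private theorem bs_compact (A : ℝ) (hA : 0 ≤ A) : IsCompact {t : Fin N → ℝ | ∑ j, |t j| ≤ A} := by
  apply Metric.isCompact_of_isClosed_isBounded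
  · apply isClosed_le
    · fun_prop
    · fun_prop
  · rw [Metric.isBounded_iff_subset_closedBall 0]
    refine ⟨A, fun t ht => ?_⟩
    rw [mem_closedBall_zero_iff, pi_norm_le_iff_of_nonneg hA]
    intro j
    rw [Real.norm_eq_abs]
    exact (Finset.single_le_sum (f := fun j => |t j|) (fun _ _ => abs_nonneg _)
      (Finset.mem_univ j)).trans ht

theorem width_le_ballSec (K : Set (Fin d → ℝ)) (hconv : Convex ℝ K) (hint : (interior K).Nonempty)
    (hfree : ∀ z : Fin d → ℤ, (fun i => (z i : ℝ)) ∉ interior K) {u : Fin N → Fin n → ℝ} (hu : Inj u)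
    (v : Fin n → Fin d → ℝ) (x0 : Fin d → ℝ) (M : ℝ) (hM : 0 ≤ M)
    (hin : ∀ x : Fin n → ℝ, ∑ i, lin u x i ^ 2 ≤ N → XX x0 v x ∈ K)
    (hout : ∀ z ∈ K, ∃ x : Fin n → ℝ, ∑ i, |lin u x i| ≤ M * N ∧ z = XX x0 v x) :
    ∃ y : Fin d → ℤ, y ≠ 0 ∧ ∀ z ∈ K, ∀ z' ∈ K, ∑ i, (z i - z' i) * (y i : ℝ) ≤ 8 / 5 * M * N := by
  -- `d` is positive
  rcases Nat.eq_zero_or_pos d with hd | hd
  · subst hd
    exfalso
    obtain ⟨z, hz⟩ := hint
    refine hfree (fun i => 0) ?_
    have : (fun i : Fin 0 => (((fun _ => 0 : Fin 0 → ℤ) i : ℤ) : ℝ)) = z := Subsingleton.elim _ _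
    rw [this]
    exact hz
  -- `N = 0`
  rcases Nat.eq_zero_or_pos N with hN | hN
  · subst hN
    have hx0 : ∀ x : Fin n → ℝ, x = 0 := fun x => hu x (Subsingleton.elim _ _)
    refine ⟨fun _ => 1, fun h => ?_, fun z hz z' hz' => ?_⟩
    · have := congrFun h ⟨0, hd⟩
      simp at this
    · obtain ⟨x, -, rfl⟩ := hout z hz
      obtain ⟨x', -, rfl⟩ := hout z' hz'
      rw [hx0 x, hx0 x']
      simp
  by_contra hcon
  push Not at hcon
  have hNr : (0 : ℝ) < N := by exact_mod_cast hN
  -- the set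
  set C : Set (Fin n → ℝ) := {x | ∑ i, |lin u x i| ≤ N} with hCdef
  have hC : IsCompact C := compact_pre hu (T := {t : Fin N → ℝ | ∑ i, |t i| ≤ N})
    (bs_compact _ hNr.le)
  have hC0 : C.Nonempty := ⟨0, by
    rw [hCdef, Set.mem_ofPred_eq]
    have : ∀ i, lin u (0 : Fin n → ℝ) i = 0 := fun i => by simp [lin]
    simp [this]⟩
  -- points of `K` in the support function
  have hMC : ∀ x : Fin n → ℝ, ∑ i, |lin u x i| ≤ M * N → ∃ w ∈ C, ∀ k, x k = M * w k := by
    intro x hx
    rcases hM.eq_or_lt with h0 | h0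
    · subst h0
      have h1 : lin u x = 0 := by
        funext i
        have h2 : |lin u x i| ≤ 0 := by
          refine (Finset.single_le_sum (f := fun i => |lin u x i|) (fun _ _ => abs_nonneg _)
            (Finset.mem_univ i)).trans (hx.trans ?_)
          simp
        exact abs_nonpos_iff.1 h2
      have h3 := hu x h1
      obtain ⟨w, hw⟩ := hC0
      exact ⟨w, hw, fun k => by rw [h3]; simp⟩
    · refine ⟨fun k => M⁻¹ * x k, ?_, fun k => by field_simp⟩
      rw [hCdef, Set.mem_ofPred_eq]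
      have h4 : ∀ i, |lin u (fun k => M⁻¹ * x k) i| = M⁻¹ * |lin u x i| := by
        intro i
        rw [bs_lin_smul, abs_mul, abs_of_pos (inv_pos.2 h0)]
      simp_rw [h4]
      rw [← Finset.mul_sum]
      calc M⁻¹ * ∑ i, |lin u x i| ≤ M⁻¹ * (M * N) :=
            mul_le_mul_of_nonneg_left hx (inv_pos.2 h0).le
        _ = N := by field_simp
  have hy : ∀ y : Fin d → ℤ, y ≠ 0 → 4 / 5 * (N : ℝ) < supp C (pr v fun i => (y i : ℝ)) := by
    intro y hy0
    obtain ⟨z, hz, z', hz', hlt⟩ := hcon y hy0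
    obtain ⟨x, hx, rfl⟩ := hout z hz
    obtain ⟨x', hx', rfl⟩ := hout z' hz'
    rw [bs_XX_sub] at hlt
    have h1 := bs_le_supp hC hM (pr v fun i => (y i : ℝ)) (hMC x hx)
    have h2 := bs_le_supp hC hM (pr v fun i => (y i : ℝ)) (x := fun k => -x' k) (hMC _ (by
      have : ∀ i, |lin u (fun k => -x' k) i| = |lin u x' i| := by
        intro i
        have := bs_lin_smul u (-1) x' i
        simp only [neg_mul, one_mul] at this
        rw [this, abs_neg]
      simp_rw [this]
      exact hx'))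
    have h3 : 8 / 5 * M * N < 2 * M * supp C (pr v fun i => (y i : ℝ)) := by
      calc 8 / 5 * M * N < _ := hlt
        _ ≤ M * supp C (pr v fun i => (y i : ℝ)) + M * supp C (pr v fun i => (y i : ℝ)) :=
            add_le_add h1 h2
        _ = _ := by ring
    by_contra hle
    rw [not_lt] at hle
    nlinarith [mul_le_mul_of_nonneg_left hle hM]
  -- the constants
  have hpi : (9.85 : ℝ) < Real.pi ^ 2 := by
    have := Real.pi_gt_d2
    nlinarith
  obtain ⟨A, hA⟩ : ∃ A : ℝ, A = 31 / 50 * (N : ℝ) := ⟨_, rfl⟩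
  have hA0 : 0 < A := by rw [hA]; positivity
  obtain ⟨Ch, hCh⟩ := supp_bd hC hC0
  have hu' : Inj (fun i k => 4 / 5 * u i k) := by
    intro x hx
    refine hu x ?_
    funext i
    have h1 := congrFun hx i
    rw [bs_lin_mul] at h1
    have h2 : (4 / 5 : ℝ) * lin u x i = 0 := h1
    rcases mul_eq_zero.1 h2 with h2 | h2
    · norm_num at h2
    · exact h2
  obtain ⟨z, x, hxT, hxz⟩ := akt (d := d) hu' x0 v KK bb FP_bb.symm KK_nonneg bb_nonneg
    bb_zero_pos
    (fun _ => 0) (fun _ => 0) FP.zero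
    (fun t => if 1 ≤ |t| then 1 else 0) (fun t => by split_ifs <;> norm_num)
    (fun t => by
      split_ifs with h
      · rw [KK_out t h]; norm_num
      · norm_num)
    0 0 le_rfl one_pos (fun c => by simp)
    (supp C) Ch (fun a b => supp_add hC hC0 a b) hCh (4 / 5 * (N : ℝ))
    (fun c hc => by
      rw [zero_add]
      by_contra hlt
      rw [not_le] at hlt
      have h0 : ∀ i, |c i| < 1 := by
        intro i
        by_contra hi
        rw [not_lt] at hi
        have h1 := Finset.single_le_sum (f := fun i => if 1 ≤ |c i| then (1 : ℝ) else 0)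
          (fun j _ => by split_ifs <;> norm_num) (Finset.mem_univ i)
        rw [if_pos hi] at h1
        linarith
      -- the maximum of the coefficients
      have hne : (Finset.univ : Finset (Fin N)).Nonempty := ⟨⟨0, hN⟩, Finset.mem_univ _⟩
      obtain ⟨i0, -, hi0⟩ := Finset.exists_max_image Finset.univ (fun i => |c i|) hne
      have h1 : supp C (fun k => -linT (fun i k => 4 / 5 * u i k) c k) ≤ 4 / 5 * (|c i0| * N) := by
        refine supp_le hC0 _ fun x hx => ?_
        rw [hCdef, Set.mem_ofPred_eq] at hx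
        have h2 := lin_linT (fun i k => 4 / 5 * u i k) c x
        have h3 : ∑ k, x k * -linT (fun i k => 4 / 5 * u i k) c k = 4 / 5 * ∑ i, -(c i * lin u x i) := by
          have h4 : ∑ k, x k * -linT (fun i k => 4 / 5 * u i k) c k =
              -∑ k, x k * linT (fun i k => 4 / 5 * u i k) c k := by
            rw [← Finset.sum_neg_distrib]
            exact Finset.sum_congr rfl fun k _ => by ring
          rw [h4, h2, ← Finset.sum_neg_distrib, Finset.mul_sum]
          exact Finset.sum_congr rfl fun i _ => by rw [bs_lin_mul]; ring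
        rw [h3]
        refine mul_le_mul_of_nonneg_left ?_ (by norm_num)
        calc ∑ i, -(c i * lin u x i) ≤ ∑ i, |c i0| * |lin u x i| := by
              refine Finset.sum_le_sum fun i _ => ?_
              calc -(c i * lin u x i) ≤ |c i * lin u x i| := neg_le_abs _
                _ = |c i| * |lin u x i| := abs_mul _ _
                _ ≤ |c i0| * |lin u x i| :=
                    mul_le_mul_of_nonneg_right (hi0 i (Finset.mem_univ _)) (abs_nonneg _)
          _ = |c i0| * ∑ i, |lin u x i| := by rw [Finset.mul_sum]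
          _ ≤ |c i0| * N := mul_le_mul_of_nonneg_left hx (abs_nonneg _)
      have h2 := hc.trans h1
      have h3 := h0 i0
      nlinarith)
    hy
    (fun t => A⁻¹ * K1 t) (fun t => A⁻¹ * b1 t) (FP_b1.symm.smul A⁻¹)
    (fun t => A⁻¹ * t ^ 2) (fun t => by positivity)
    (fun t => by
      have := bb_sq_le t
      calc A⁻¹ * t ^ 2 * bb t = A⁻¹ * (t ^ 2 * bb t) := by ring
        _ ≤ A⁻¹ * b1 t := mul_le_mul_of_nonneg_left this (inv_pos.2 hA0).le)
    0 (A⁻¹ * (6 / Real.pi ^ 2)) le_rfl one_pos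
    (fun c => by
      have h1 := K1_le c
      have h2 : |A⁻¹ * K1 c| = A⁻¹ * K1 c := abs_of_nonneg (mul_nonneg (inv_pos.2 hA0).le (K1_nonneg c))
      rw [h2]
      calc A⁻¹ * K1 c ≤ A⁻¹ * (6 / Real.pi ^ 2 * KK c) := mul_le_mul_of_nonneg_left h1 (inv_pos.2 hA0).le
        _ = A⁻¹ * (6 / Real.pi ^ 2) * KK c := by ring)
    {t : Fin N → ℝ | ∑ i, t i ^ 2 ≤ A}
    (isCompact_ball' _ hA0.le)
    (fun t ht => by
      rw [Set.mem_ofPred_eq, not_le] at ht
      rw [zero_add, ← Finset.mul_sum, ← div_eq_inv_mul, le_div_iff₀ hA0, one_mul]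
      exact ht.le)
    0
    (by simp)
    (by norm_num)
    (by
      have h1 : (N : ℝ) * (A⁻¹ * (6 / Real.pi ^ 2)) = 300 / 31 / Real.pi ^ 2 := by
        rw [hA]
        field_simp
        norm_num
      have h2 : 300 / 31 / Real.pi ^ 2 < 1 := by
        rw [div_lt_iff₀ (by positivity)]
        linarith
      rw [h1]
      linarith)
  -- the point is in the interior
  obtain ⟨z1, hz1⟩ := hint
  obtain ⟨s, -, rfl⟩ := hout z1 (interior_subset hz1)
  refine hfree z ?_
  rw [← hxz]
  have hxl : (∑ i, lin u x i ^ 2) / N < 1 := by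
    have h1 : ∑ i, lin (fun i k => 4 / 5 * u i k) x i ^ 2 ≤ A := hxT
    have h2 : ∀ i, lin (fun i k => 4 / 5 * u i k) x i ^ 2 = 16 / 25 * lin u x i ^ 2 := by
      intro i
      rw [bs_lin_mul]
      ring
    simp_rw [h2] at h1
    rw [← Finset.mul_sum, hA] at h1
    rw [div_lt_one hNr]
    linarith
  refine interior_of_lt K hconv x0 v (fun x => (∑ i, lin u x i ^ 2) / N) ?_ ?_ s hz1 x hxl
  · exact (continuous_finsetSum _ fun i _ => (bs_cont_lin u i).pow 2).div_const _
  · intro x hx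
    refine hin x ?_
    rwa [div_le_one hNr] at hx

end Pool.Agent.Lib.MP_d2370c_gt.SQ
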