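import Pool.Agent.Lib.MP_d2370c_gt.SQ.Pair

/-!
# Fourier pairs: convolutions
-/

set_option autoImplicit false

open Finset MeasureTheory Filter Topology

namespace Pool.Agent.Lib.MP_d2370c_gt.SQ

open Pool.Agent.Lib.MP_d2370c_gt

theorem cv_nonneg {f g : ℝ → ℝ} (hf : ∀ x, 0 ≤ f x) (hg : ∀ x, 0 ≤ g x) (x : ℝ) : 0 ≤ cv f g x :=
  integral_nonneg fun s => mul_nonneg (hf _) (hg _)

/-- multiplication by a continuous character -/
private theorem conv_char {X : Type*} [MeasurableSpace X] [TopologicalSpace X] [OpensMeasurableSpace X] {μ : Measure X}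
    {φ : X → ℂ} (hφ : Integrable φ μ) {θ : X → ℝ} (hθ : Continuous θ) : Integrable (fun p => φ p * ee (θ p)) μ := by
  refine Integrable.mono' hφ.norm ?_ (ae_of_all _ fun p => ?_)
  · exact hφ.aestronglyMeasurable.mul (continuous_ee.comp hθ).measurable.aestronglyMeasurable
  · rw [norm_mul, norm_ee, mul_one]

private theorem conv_int {f g : ℝ → ℝ} (hf : Integrable f) (hg : Integrable g) :
    Integrable (fun p : ℝ × ℝ => f (p.1 - p.2) * g p.2) (volume.prod volume) := by
  have h := Integrable.convolution_integrand (ContinuousLinearMap.mul ℝ ℝ) (μ := volume) (ν := volume) hg hf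
  refine h.congr (ae_of_all _ fun p => ?_)
  simp only [ContinuousLinearMap.mul_apply']
  ring

private theorem cv_integrable {f g : ℝ → ℝ} (hf : Integrable f) (hg : Integrable g) : Integrable (cv f g) :=
  (conv_int hf hg).integral_prod_left

private theorem conv_fwd {f F g G : ℝ → ℝ} (h : FP f F) (h' : FP g G) (t : ℝ) :
    ∫ x, ((cv f g x : ℝ) : ℂ) * ee (x * t) = ((F t * G t : ℝ) : ℂ) := by
  have e1 : ∀ x : ℝ, ((cv f g x : ℝ) : ℂ) * ee (x * t) =
      ∫ s, ((f (x - s) * g s : ℝ) : ℂ) * ee (x * t) := by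
    intro x
    rw [integral_mul_const, cv, integral_complex_ofReal]
  have hi : Integrable (fun p : ℝ × ℝ => ((f (p.1 - p.2) * g p.2 : ℝ) : ℂ) * ee (p.1 * t)) (volume.prod volume) :=
    conv_char (conv_int h.intf h'.intf).ofReal (continuous_fst.mul continuous_const)
  have e2 : ∀ s : ℝ, ∫ x, ((f (x - s) * g s : ℝ) : ℂ) * ee (x * t) = ((g s : ℂ) * ee (s * t)) * (F t : ℂ) := by
    intro s
    have e3 : ∀ x : ℝ, ((f (x - s) * g s : ℝ) : ℂ) * ee (x * t) =
        ((g s : ℂ) * ee (s * t)) * ((f (x - s) : ℂ) * ee ((x - s) * t)) := by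
      intro x
      have e4 : x * t = s * t + (x - s) * t := by ring
      rw [e4, ee_add]
      push_cast
      ring
    simp only [e3]
    rw [integral_const_mul, integral_sub_right_eq_self (fun y : ℝ => (f y : ℂ) * ee (y * t)) s, h.fwd]
  simp only [e1]
  rw [integral_integral_swap hi]
  simp only [e2]
  rw [integral_mul_const, h'.fwd]
  push_cast
  ring

private theorem conv_bwd {f F g G : ℝ → ℝ} (h : FP f F) (h' : FP g G) (x : ℝ) :
    ∫ t, ((F t * G t : ℝ) : ℂ) * ee (t * x) = ((cv f g x : ℝ) : ℂ) := by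
  have e1 : ((cv f g x : ℝ) : ℂ) = ∫ s, ∫ t, ((g s : ℂ) * (F t : ℂ)) * ee (t * (x - s)) := by
    rw [cv, ← integral_complex_ofReal]
    refine integral_congr_ae (ae_of_all _ fun s => ?_)
    have e2 : ∀ t : ℝ, ((g s : ℂ) * (F t : ℂ)) * ee (t * (x - s)) = (g s : ℂ) * ((F t : ℂ) * ee (t * (x - s))) :=
      fun t => by ring
    simp only [e2]
    rw [integral_const_mul, h.bwd]
    push_cast
    ring
  have hi : Integrable (fun p : ℝ × ℝ => ((g p.1 : ℂ) * (F p.2 : ℂ)) * ee (p.2 * (x - p.1))) (volume.prod volume) :=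
    conv_char (h'.intf.ofReal.mul_prod h.intF.ofReal) (continuous_snd.mul (continuous_const.sub continuous_fst))
  rw [e1, integral_integral_swap hi]
  refine integral_congr_ae (ae_of_all _ fun t => ?_)
  have e3 : ∀ s : ℝ, ((g s : ℂ) * (F t : ℂ)) * ee (t * (x - s)) =
      ((F t : ℂ) * ee (t * x)) * ((g s : ℂ) * ee (s * (-t))) := by
    intro s
    have e4 : t * (x - s) = t * x + s * (-t) := by ring
    rw [e4, ee_add]
    ring
  simp only [e3]
  rw [integral_const_mul, h'.fwd, h'.even]
  push_cast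
  ring

theorem FP.conv {f F g G : ℝ → ℝ} (h : FP f F) (h' : FP g G) : FP (cv f g) (fun t => F t * G t) := by
  obtain ⟨C, hC0, hC⟩ := h'.bdd
  have hFG : Integrable fun t => F t * G t := by
    refine Integrable.mono' (h.intF.norm.mul_const C) (h.contF.mul h'.contF).aestronglyMeasurable
      (ae_of_all _ fun t => ?_)
    rw [norm_mul]
    exact mul_le_mul_of_nonneg_left (hC t) (norm_nonneg _)
  have hcont : Continuous (cv f g) := by
    have h1 : Continuous fun x : ℝ => ∫ t, ((F t * G t : ℝ) : ℂ) * ee (t * x) := by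
      refine continuous_of_dominated (bound := fun t => ‖F t * G t‖) (fun x => ?_) (fun x => ?_) hFG.norm
        (ae_of_all _ fun t => ?_)
      · exact (pair_int hFG x).aestronglyMeasurable
      · refine ae_of_all _ fun t => ?_
        rw [norm_mul, norm_ee, mul_one, Complex.norm_real]
      · exact continuous_const.mul (continuous_ee.comp (continuous_const.mul continuous_id))
    have h2 : cv f g = fun x => (∫ t, ((F t * G t : ℝ) : ℂ) * ee (t * x)).re := by
      funext x
      rw [conv_bwd h h', Complex.ofReal_re]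
    rw [h2]
    exact Complex.continuous_re.comp h1
  exact ⟨hcont, h.contF.mul h'.contF, cv_integrable h.intf h'.intf, hFG, conv_fwd h h', conv_bwd h h'⟩

end Pool.Agent.Lib.MP_d2370c_gt.SQ
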