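import Pool.Agent.Lib.MP_d2370c_gt.SQ.Cube
import Pool.Agent.Lib.MP_d2370c_gt.ClassR

/-!
# Affine images of sections of 2-convex unconditional bodies
-/

set_option autoImplicit false

open Finset MeasureTheory Filter Topology

namespace Pool.Agent.Lib.MP_d2370c_gt.SQ

open Pool.Agent.Lib.MP_d2370c_gt

variable {n N d : ℕ}

private theorem c4b_lin_comb (u : Fin N → Fin n → ℝ) (x y : Fin n → ℝ) (a b : ℝ) :
    lin u (a • x + b • y) = a • lin u x + b • lin u y := by
  funext i
  simp only [lin, Pi.add_apply, Pi.smul_apply, smul_eq_mul, Finset.mul_sum, ← Finset.sum_add_distrib]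
  exact Finset.sum_congr rfl fun k _ => by ring

private theorem c4b_XX_comb (x0 : Fin d → ℝ) (v : Fin n → Fin d → ℝ) (x y : Fin n → ℝ) {a b : ℝ} (hab : a + b = 1) :
    XX x0 v (a • x + b • y) = a • XX x0 v x + b • XX x0 v y := by
  funext i
  simp only [XX, Pi.add_apply, Pi.smul_apply, smul_eq_mul]
  have h1 : ∑ j, (a * x j + b * y j) * v j i = a * ∑ j, x j * v j i + b * ∑ j, y j * v j i := by
    rw [Finset.mul_sum, Finset.mul_sum, ← Finset.sum_add_distrib]
    exact Finset.sum_congr rfl fun k _ => by ring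
  rw [h1]
  have hb : b = 1 - a := by linarith
  subst hb
  ring

private theorem c4b_convex {T : Set (Fin N → ℝ)} (hT : Convex ℝ T) (u : Fin N → Fin n → ℝ) (v : Fin n → Fin d → ℝ)
    (x0 : Fin d → ℝ) : Convex ℝ (subq u v x0 T) := by
  rintro _ ⟨x, hx, rfl⟩ _ ⟨y, hy, rfl⟩ a b ha hb hab
  exact ⟨a • x + b • y, by rw [c4b_lin_comb]; exact hT hx hy ha hb hab, (c4b_XX_comb x0 v x y hab).symm⟩

theorem width_subq (T : Set (Fin N → ℝ)) (hT : SolidConvex 2 T) {u : Fin N → Fin n → ℝ} (hu : Inj u)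
    (v : Fin n → Fin d → ℝ) (x0 : Fin d → ℝ) (hint : (interior (subq u v x0 T)).Nonempty)
    (hfree : ∀ z : Fin d → ℤ, (fun i => (z i : ℝ)) ∉ interior (subq u v x0 T)) :
    ∃ y : Fin d → ℤ, y ≠ 0 ∧ ∀ z ∈ subq u v x0 T, ∀ z' ∈ subq u v x0 T, ∑ i, (z i - z' i) * (y i : ℝ) ≤ 9 / 4 * N := by
  obtain ⟨D, hD0, hD, hDle⟩ := hT.exists_box one_le_two
  have hlin : ∀ x i, lin (fun i k => u i k / D i) x i = lin u x i / D i := by
    intro x i
    simp only [lin, Finset.sum_div]
    exact Finset.sum_congr rfl fun k _ => by ring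
  have hu' : Inj fun i k => u i k / D i := by
    intro x hx
    refine hu x ?_
    funext i
    have h1 := congrFun hx i
    rw [hlin] at h1
    rw [Pi.zero_apply, div_eq_zero_iff] at h1
    exact h1.resolve_right (hD0 i).ne'
  have h := width_le_cubeSec (subq u v x0 T) (c4b_convex (hT.convex one_le_two) u v x0) hint hfree hu' v x0 1
    zero_le_one ?_ ?_
  · simpa using h
  · intro x hx
    refine ⟨x, hT.solid D hD _ fun i => ?_, rfl⟩
    have h1 := hx i
    rw [hlin, abs_div, div_le_one (abs_pos.2 (hD0 i).ne')] at h1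
    exact h1
  · rintro z ⟨x, hx, rfl⟩
    refine ⟨x, ?_, rfl⟩
    have h1 := hDle _ hx
    have h2 : ∀ i, lin (fun i k => u i k / D i) x i ^ 2 = (|lin u x i| / D i) ^ (2 : ℝ) := by
      intro i
      rw [hlin, Real.rpow_two, div_pow, div_pow, sq_abs]
    rw [Finset.sum_congr rfl fun i _ => h2 i, one_pow, one_mul]
    exact h1

end Pool.Agent.Lib.MP_d2370c_gt.SQ
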