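import Pool.Agent.Lib.MP_d2370c_gt.SQ.Akt
import Pool.Agent.Lib.MP_d2370c_gt.SQ.Supp
import Pool.Agent.Lib.MP_d2370c_gt.SQ.Base

/-!
# MP_d2370c_gt, sections and projections: bodies between a section of the cube and of the ball

`akt` for `u / l`, `l ^ 2 = 49 / 50`, kernel `φ = bb`, `ρ = KK`, `h = supp {∑ (lin u x i) ^ 2 ≤ N}`,
`R = 9 / 8 * N`, `E c = N * c ^ 2 / (l * R) ^ 2`, `E2` the indicator of `{1 ≤ |t|}`, `h2 = ρ2 = 0`,
`T` the unit cube; `p = (6 / π ^ 2) * (64 / 81) * (50 / 49) < 1 / 2`.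
-/

set_option autoImplicit false

open Finset MeasureTheory Filter Topology

namespace Pool.Agent.Lib.MP_d2370c_gt.SQ

open Pool.Agent.Lib.MP_d2370c_gt

variable {n N d : ℕ}

private theorem cs_XX_sub (x0 : Fin d → ℝ) (v : Fin n → Fin d → ℝ) (x x' : Fin n → ℝ) (y : Fin d → ℝ) :
    ∑ i, (XX x0 v x i - XX x0 v x' i) * y i = ∑ k, x k * pr v y k + ∑ k, -x' k * pr v y k := by
  have h1 := sum_XX x0 v x y
  have h2 := sum_XX x0 v x' y
  have h3 : ∑ i, (XX x0 v x i - XX x0 v x' i) * y i =
      ∑ i, y i * XX x0 v x i - ∑ i, y i * XX x0 v x' i := by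
    rw [← Finset.sum_sub_distrib]
    exact Finset.sum_congr rfl fun i _ => by ring
  have h4 : ∑ k, -x' k * pr v y k = -∑ k, x' k * pr v y k := by
    rw [← Finset.sum_neg_distrib]
    exact Finset.sum_congr rfl fun i _ => by ring
  rw [h3, h1, h2, h4]
  ring

private theorem cs_lin_smul (u : Fin N → Fin n → ℝ) (c : ℝ) (x : Fin n → ℝ) (i : Fin N) :
    lin u (fun k => c * x k) i = c * lin u x i := by
  unfold lin
  rw [Finset.mul_sum]
  exact Finset.sum_congr rfl fun k _ => by ring

private theorem cs_lin_div (u : Fin N → Fin n → ℝ) (c : ℝ) (x : Fin n → ℝ) (i : Fin N) :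
    lin (fun i k => u i k / c) x i = lin u x i / c := by
  unfold lin
  rw [Finset.sum_div]
  exact Finset.sum_congr rfl fun k _ => by ring

private theorem cs_cont_lin (u : Fin N → Fin n → ℝ) (i : Fin N) :
    Continuous fun x : Fin n → ℝ => lin u x i := by
  unfold lin
  fun_prop

/-- points of `M C` -/
private theorem cs_le_supp {C : Set (Fin n → ℝ)} (hC : IsCompact C) {M : ℝ} (hM : 0 ≤ M) (a : Fin n → ℝ)
    {x : Fin n → ℝ} (hx : ∃ w ∈ C, ∀ k, x k = M * w k) : ∑ k, x k * a k ≤ M * supp C a := by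
  obtain ⟨w, hw, hxw⟩ := hx
  have h1 := le_supp hC a hw
  calc ∑ k, x k * a k = M * ∑ k, w k * a k := by
        rw [Finset.mul_sum]
        exact Finset.sum_congr rfl fun k _ => by rw [hxw k]; ring
    _ ≤ M * supp C a := mul_le_mul_of_nonneg_left h1 hM

theorem width_le_cubeSec (K : Set (Fin d → ℝ)) (hconv : Convex ℝ K) (hint : (interior K).Nonempty)
    (hfree : ∀ z : Fin d → ℤ, (fun i => (z i : ℝ)) ∉ interior K) {u : Fin N → Fin n → ℝ} (hu : Inj u)
    (v : Fin n → Fin d → ℝ) (x0 : Fin d → ℝ) (M : ℝ) (hM : 0 ≤ M)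
    (hin : ∀ x : Fin n → ℝ, (∀ i, |lin u x i| ≤ 1) → XX x0 v x ∈ K)
    (hout : ∀ z ∈ K, ∃ x : Fin n → ℝ, ∑ i, lin u x i ^ 2 ≤ M ^ 2 * N ∧ z = XX x0 v x) :
    ∃ y : Fin d → ℤ, y ≠ 0 ∧ ∀ z ∈ K, ∀ z' ∈ K, ∑ i, (z i - z' i) * (y i : ℝ) ≤ 9 / 4 * M * N := by
  -- `d` is positive
  rcases Nat.eq_zero_or_pos d with hd | hd
  · subst hd
    exfalso
    obtain ⟨z, hz⟩ := hint
    refine hfree (fun i => 0) ?_
    have : (fun i : Fin 0 => (((fun _ => 0 : Fin 0 → ℤ) i : ℤ) : ℝ)) = z := Subsingleton.elim _ _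
    rw [this]
    exact hz
  -- `N = 0`
  rcases Nat.eq_zero_or_pos N with hN | hN
  · subst hN
    have hx0 : ∀ x : Fin n → ℝ, x = 0 := fun x => hu x (Subsingleton.elim _ _)
    refine ⟨fun _ => 1, fun h => ?_, fun z hz z' hz' => ?_⟩
    · have := congrFun h ⟨0, hd⟩
      simp at this
    · obtain ⟨x, -, rfl⟩ := hout z hz
      obtain ⟨x', -, rfl⟩ := hout z' hz'
      rw [hx0 x, hx0 x']
      simp
  by_contra hcon
  push Not at hcon
  have hNr : (0 : ℝ) < N := by exact_mod_cast hN
  -- the set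
  set C : Set (Fin n → ℝ) := {x | ∑ i, lin u x i ^ 2 ≤ N} with hCdef
  have hC : IsCompact C := compact_pre hu (T := {t : Fin N → ℝ | ∑ i, t i ^ 2 ≤ N})
    (isCompact_ball' _ hNr.le)
  have hC0 : C.Nonempty := ⟨0, by
    rw [hCdef, Set.mem_ofPred_eq]
    have : ∀ i, lin u (0 : Fin n → ℝ) i = 0 := fun i => by simp [lin]
    simp [this]⟩
  -- points of `K` in the support function
  have hMC : ∀ x : Fin n → ℝ, ∑ i, lin u x i ^ 2 ≤ M ^ 2 * N → ∃ w ∈ C, ∀ k, x k = M * w k := by
    intro x hx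
    rcases hM.eq_or_lt with h0 | h0
    · subst h0
      have h1 : lin u x = 0 := by
        funext i
        have h2 : lin u x i ^ 2 ≤ 0 := by
          refine (Finset.single_le_sum (f := fun i => lin u x i ^ 2) (fun _ _ => sq_nonneg _)
            (Finset.mem_univ i)).trans (hx.trans ?_)
          simp
        exact pow_eq_zero_iff (two_ne_zero) |>.1 (le_antisymm h2 (sq_nonneg _))
      have h3 := hu x h1
      obtain ⟨w, hw⟩ := hC0
      exact ⟨w, hw, fun k => by rw [h3]; simp⟩
    · refine ⟨fun k => M⁻¹ * x k, ?_, fun k => by field_simp⟩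
      rw [hCdef, Set.mem_ofPred_eq]
      have h4 : ∀ i, lin u (fun k => M⁻¹ * x k) i ^ 2 = (M⁻¹) ^ 2 * lin u x i ^ 2 := by
        intro i
        rw [cs_lin_smul]
        ring
      simp_rw [h4]
      rw [← Finset.mul_sum]
      calc (M⁻¹) ^ 2 * ∑ i, lin u x i ^ 2 ≤ (M⁻¹) ^ 2 * (M ^ 2 * N) :=
            mul_le_mul_of_nonneg_left hx (sq_nonneg _)
        _ = N := by field_simp
  have hy : ∀ y : Fin d → ℤ, y ≠ 0 → 9 / 8 * (N : ℝ) < supp C (pr v fun i => (y i : ℝ)) := by
    intro y hy0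
    obtain ⟨z, hz, z', hz', hlt⟩ := hcon y hy0
    obtain ⟨x, hx, rfl⟩ := hout z hz
    obtain ⟨x', hx', rfl⟩ := hout z' hz'
    rw [cs_XX_sub] at hlt
    have h1 := cs_le_supp hC hM (pr v fun i => (y i : ℝ)) (hMC x hx)
    have h2 := cs_le_supp hC hM (pr v fun i => (y i : ℝ)) (x := fun k => -x' k) (hMC _ (by
      have : ∀ i, lin u (fun k => -x' k) i ^ 2 = lin u x' i ^ 2 := by
        intro i
        have := cs_lin_smul u (-1) x' i
        simp only [neg_mul, one_mul] at this
        rw [this]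
        ring
      simp_rw [this]
      exact hx'))
    have h3 : 9 / 4 * M * N < 2 * M * supp C (pr v fun i => (y i : ℝ)) := by
      calc 9 / 4 * M * N < _ := hlt
        _ ≤ M * supp C (pr v fun i => (y i : ℝ)) + M * supp C (pr v fun i => (y i : ℝ)) :=
            add_le_add h1 h2
        _ = _ := by ring
    by_contra hle
    rw [not_lt] at hle
    nlinarith [mul_le_mul_of_nonneg_left hle hM]
  -- the constants
  set l : ℝ := Real.sqrt (49 / 50) with hl
  have hl2 : l ^ 2 = 49 / 50 := Real.sq_sqrt (by norm_num)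
  have hl0 : 0 < l := Real.sqrt_pos.2 (by norm_num)
  have hl1 : l < 1 := by nlinarith
  set R : ℝ := 9 / 8 * (N : ℝ) with hR
  have hR0 : 0 < R := by positivity
  set q : ℝ := (N : ℝ) / (l * R) ^ 2 with hq
  have hq0 : 0 < q := by positivity
  have hpi : (9.85 : ℝ) < Real.pi ^ 2 := by
    have := Real.pi_gt_d2
    nlinarith
  obtain ⟨Ch, hCh⟩ := supp_bd hC hC0
  have hu' : Inj (fun i k => u i k / l) := by
    intro x hx
    refine hu x ?_
    funext i
    have h1 := congrFun hx i
    rw [cs_lin_div] at h1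
    have h2 : lin u x i / l = 0 := h1
    rw [div_eq_zero_iff] at h2
    rcases h2 with h2 | h2
    · exact h2
    · exact absurd h2 hl0.ne'
  obtain ⟨z, x, hxT, hxz⟩ := akt (d := d) hu' x0 v bb KK FP_bb bb_nonneg KK_nonneg
    (by rw [KK_zero]; norm_num)
    (fun c => q * b1 c) (fun t => q * K1 t) (FP_b1.smul q)
    (fun c => q * c ^ 2) (fun c => by positivity)
    (fun c => by
      have := bb_sq_le c
      calc q * c ^ 2 * bb c = q * (c ^ 2 * bb c) := by ring
        _ ≤ q * b1 c := mul_le_mul_of_nonneg_left this hq0.le)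
    0 (q * (6 / Real.pi ^ 2)) le_rfl one_pos
    (fun t => by
      have := K1_le t
      calc q * K1 t ≤ q * (6 / Real.pi ^ 2 * KK t) := mul_le_mul_of_nonneg_left this hq0.le
        _ = q * (6 / Real.pi ^ 2) * KK t := by ring)
    (supp C) Ch (fun a b => supp_add hC hC0 a b) hCh R
    (fun c hc => by
      -- Cauchy-Schwarz
      have h1 : supp C (fun k => -linT (fun i k => u i k / l) c k) ≤
          Real.sqrt ((∑ i, c i ^ 2) * N) / l := by
        refine supp_le hC0 _ fun x hx => ?_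
        rw [hCdef, Set.mem_ofPred_eq] at hx
        have h2 := lin_linT (fun i k => u i k / l) c x
        have h3 : ∑ k, x k * -linT (fun i k => u i k / l) c k = -∑ i, c i * (lin u x i / l) := by
          have h4 : ∑ k, x k * -linT (fun i k => u i k / l) c k =
              -∑ k, x k * linT (fun i k => u i k / l) c k := by
            rw [← Finset.sum_neg_distrib]
            exact Finset.sum_congr rfl fun k _ => by ring
          rw [h4, h2]
          congr 1
          exact Finset.sum_congr rfl fun i _ => by rw [cs_lin_div]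
        have h5 : -∑ i, c i * (lin u x i / l) = (∑ i, c i * -lin u x i) / l := by
          rw [Finset.sum_div, ← Finset.sum_neg_distrib]
          exact Finset.sum_congr rfl fun i _ => by ring
        rw [h3, h5]
        refine div_le_div_of_nonneg_right ?_ hl0.le
        refine Real.le_sqrt_of_sq_le ?_
        refine (Finset.sum_mul_sq_le_sq_mul_sq _ _ _).trans ?_
        refine mul_le_mul_of_nonneg_left ?_ (Finset.sum_nonneg fun _ _ => sq_nonneg _)
        simpa using hx
      have h6 : R * l ≤ Real.sqrt ((∑ i, c i ^ 2) * N) := by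
        have := hc.trans h1
        rwa [le_div_iff₀ hl0] at this
      have h7 : (R * l) ^ 2 ≤ (∑ i, c i ^ 2) * N := by
        rw [← Real.le_sqrt' (by positivity)]
        exact h6
      rw [zero_add, ← Finset.mul_sum, hq, div_mul_eq_mul_div, le_div_iff₀ (by positivity)]
      calc 1 * (l * R) ^ 2 = (R * l) ^ 2 := by ring
        _ ≤ (∑ i, c i ^ 2) * N := h7
        _ = N * ∑ i, c i ^ 2 := by ring)
    hy
    (fun _ => 0) (fun _ => 0) FP.zero
    (fun t => if 1 ≤ |t| then 1 else 0) (fun t => by split_ifs <;> norm_num)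
    (fun t => by
      split_ifs with h
      · rw [KK_out t h]; norm_num
      · norm_num)
    0 0 le_rfl one_pos (fun c => by simp)
    {t : Fin N → ℝ | ∀ i, |t i| ≤ 1}
    (by
      have : {t : Fin N → ℝ | ∀ i, |t i| ≤ 1} = Metric.closedBall 0 1 := by
        ext t
        rw [Set.mem_ofPred_eq, mem_closedBall_zero_iff, pi_norm_le_iff_of_nonneg zero_le_one]
        simp [Real.norm_eq_abs]
      rw [this]
      exact isCompact_closedBall _ _)
    (fun t ht => by
      rw [Set.mem_ofPred_eq] at ht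
      push Not at ht
      obtain ⟨i, hi⟩ := ht
      rw [zero_add]
      refine le_trans ?_ (Finset.single_le_sum (f := fun i => if 1 ≤ |t i| then (1 : ℝ) else 0)
        (fun j _ => by split_ifs <;> norm_num) (Finset.mem_univ i))
      rw [if_pos hi.le])
    ((N : ℝ) * (q * (6 / Real.pi ^ 2)))
    (by simp)
    (by
      have h1 : (N : ℝ) * (q * (6 / Real.pi ^ 2)) = 64 * 50 * 6 / (81 * 49) / Real.pi ^ 2 := by
        rw [hq, mul_pow, hl2, hR]
        field_simp
        ring
      rw [h1, div_lt_iff₀ (by positivity)]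
      nlinarith)
    (by
      have h1 : (N : ℝ) * (q * (6 / Real.pi ^ 2)) = 64 * 50 * 6 / (81 * 49) / Real.pi ^ 2 := by
        rw [hq, mul_pow, hl2, hR]
        field_simp
        ring
      have h2 : 64 * 50 * 6 / (81 * 49) / Real.pi ^ 2 < 1 / 2 := by
        rw [div_lt_iff₀ (by positivity)]
        nlinarith
      rw [h1]
      linarith)
  -- the point is in the interior
  obtain ⟨z1, hz1⟩ := hint
  obtain ⟨s, -, rfl⟩ := hout z1 (interior_subset hz1)
  refine hfree z ?_
  rw [← hxz]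
  have hxl : ∀ i, |lin u x i| ≤ l := by
    intro i
    have h1 := hxT i
    rw [cs_lin_div, abs_div, abs_of_pos hl0, div_le_one hl0] at h1
    exact h1
  refine interior_of_lt K hconv x0 v (fun x => ‖fun i => lin u x i‖) ?_ ?_ s hz1 x ?_
  · exact continuous_norm.comp (continuous_pi fun i => cs_cont_lin u i)
  · intro x hx
    refine hin x fun i => ?_
    have := norm_le_pi_norm (fun i => lin u x i) i
    rw [Real.norm_eq_abs] at this
    exact this.trans hx
  · refine lt_of_le_of_lt ?_ hl1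
    rw [pi_norm_le_iff_of_nonneg hl0.le]
    intro i
    rw [Real.norm_eq_abs]
    exact hxl i

end Pool.Agent.Lib.MP_d2370c_gt.SQ
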