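import Mathlib
import Pool.Agent.Lib.MP_d2370c_gt.SQ.Defs

/-!
# Integrability of products of functions of linear forms
-/

set_option autoImplicit false

open Finset MeasureTheory

namespace Pool.Agent.Lib.MP_d2370c_gt.SQ

open Pool.Agent.Lib.MP_d2370c_gt

variable {n N d : ℕ}

/-- some `n` rows form a basis -/
theorem int_rows {u : Fin N → Fin n → ℝ} (hu : Inj u) :
    ∃ e : Fin n → Fin N, Function.Injective e ∧ ∀ x : Fin n → ℝ, (∀ k, lin u x (e k) = 0) → x = 0 := by
  obtain ⟨κ, a, ha, hspan, hli⟩ := exists_linearIndependent' ℝ u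
  have hfin : Finite κ := Finite.of_injective a ha
  have : Fintype κ := Fintype.ofFinite κ
  have key : ∀ x : Fin n → ℝ, (∀ k, lin u x (a k) = 0) → x = 0 := by
    intro x hx
    apply hu x
    -- the functional y ↦ ∑ y k x k vanishes on the span
    have hle : Submodule.span ℝ (Set.range u) ≤ LinearMap.ker (Fintype.linearCombination ℝ x) := by
      rw [← hspan, Submodule.span_le]
      rintro _ ⟨k, rfl⟩
      have := hx k
      simp only [SetLike.mem_coe, LinearMap.mem_ker, Fintype.linearCombination_apply, Function.comp]
      simpa [lin, smul_eq_mul] using this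
    funext i
    have h1 : u i ∈ LinearMap.ker (Fintype.linearCombination ℝ x) := hle (Submodule.subset_span ⟨i, rfl⟩)
    simpa [lin, LinearMap.mem_ker, Fintype.linearCombination_apply, smul_eq_mul] using h1
  have hle1 : Fintype.card κ ≤ n := by
    have := hli.fintype_card_le_finrank
    simpa using this
  have hle2 : n ≤ Fintype.card κ := by
    -- x ↦ (lin u x (a k)) is injective
    let L : (Fin n → ℝ) →ₗ[ℝ] (κ → ℝ) :=
      { toFun := fun x k => lin u x (a k)
        map_add' := by
          intro x y; funext k; simp [lin, mul_add, Finset.sum_add_distrib]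
        map_smul' := by
          intro c x; funext k; simp [lin, Finset.mul_sum, mul_left_comm] }
    have hinj : Function.Injective L := by
      rw [injective_iff_map_eq_zero]
      intro x hx
      exact key x fun k => congrFun hx k
    have := LinearMap.finrank_le_finrank_of_injective hinj
    simpa using this
  have hcard : Fintype.card (Fin n) = Fintype.card κ := by simp; omega
  let φ := Fintype.equivOfCardEq hcard
  refine ⟨fun k => a (φ k), fun k l hkl => φ.injective (ha hkl), fun x hx => key x fun k => ?_⟩
  have := hx (φ.symm k)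
  simpa using this

theorem lin_cont (u : Fin N → Fin n → ℝ) (i : Fin N) : Continuous fun x : Fin n → ℝ => lin u x i := by
  unfold lin; fun_prop

theorem int_prod {u : Fin N → Fin n → ℝ} (hu : Inj u) (F : Fin N → ℝ → ℝ) (hc : ∀ i, Continuous (F i))
    (hi : ∀ i, Integrable (F i)) (hb : ∀ i, ∃ C : ℝ, ∀ t, |F i t| ≤ C) :
    Integrable fun x : Fin n → ℝ => ∏ i, F i (lin u x i) := by
  obtain ⟨e, he, hker⟩ := int_rows hu
  let L : (Fin n → ℝ) →ₗ[ℝ] (Fin n → ℝ) :=
    { toFun := fun x k => lin u x (e k)
      map_add' := by
        intro x y; funext k; simp [lin, mul_add, Finset.sum_add_distrib]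
      map_smul' := by
        intro c x; funext k; simp [lin, Finset.mul_sum, mul_left_comm] }
  have hL : ∀ x k, L x k = lin u x (e k) := fun x k => rfl
  have hinj : LinearMap.ker L = ⊥ := by
    rw [LinearMap.ker_eq_bot']
    intro x hx
    exact hker x fun k => congrFun hx k
  have hdet : LinearMap.det L ≠ 0 := by
    intro h0
    have := LinearMap.bot_lt_ker_of_det_eq_zero h0
    rw [hinj] at this
    exact lt_irrefl _ this
  have hG : Integrable (fun y : Fin n → ℝ => ∏ k, F (e k) (y k)) :=
    Integrable.fintype_prod (fun k => hi (e k))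
  have hGc : Continuous (fun y : Fin n → ℝ => ∏ k, F (e k) (y k)) := by
    refine continuous_finsetProd _ fun k _ => (hc (e k)).comp (continuous_apply k)
  have hLc : Continuous L := L.continuous_of_finiteDimensional
  have h1 : Integrable (fun x : Fin n → ℝ => ∏ k, F (e k) (lin u x (e k))) := by
    have hmap := Measure.map_linearMap_addHaar_eq_smul_addHaar (volume : Measure (Fin n → ℝ)) hdet
    have h2 : Integrable (fun y : Fin n → ℝ => ∏ k, F (e k) (y k)) (Measure.map L volume) := by
      rw [hmap]
      exact hG.smul_measure ENNReal.ofReal_ne_top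
    have h3 := (integrable_map_measure hGc.aestronglyMeasurable hLc.aemeasurable).1 h2
    exact h3
  choose C hC using hb
  let S : Finset (Fin N) := univ \ univ.image e
  have hsplit : ∀ x : Fin n → ℝ, (∏ i, F i (lin u x i)) =
      (∏ i ∈ S, F i (lin u x i)) * ∏ k, F (e k) (lin u x (e k)) := by
    intro x
    have h4 : ∏ k, F (e k) (lin u x (e k)) = ∏ i ∈ univ.image e, F i (lin u x i) := by
      rw [Finset.prod_image fun a _ b _ h => he h]
    rw [h4, Finset.prod_sdiff (Finset.subset_univ _)]
  have hSc : Continuous fun x : Fin n → ℝ => ∏ i ∈ S, F i (lin u x i) :=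
    continuous_finsetProd _ fun i _ => (hc i).comp (lin_cont u i)
  have h5 : Integrable fun x : Fin n → ℝ => (∏ i ∈ S, F i (lin u x i)) * ∏ k, F (e k) (lin u x (e k)) := by
    refine h1.bdd_mul (c := ∏ i ∈ S, C i) hSc.aestronglyMeasurable (Filter.Eventually.of_forall fun x => ?_)
    rw [Real.norm_eq_abs, Finset.abs_prod]
    exact Finset.prod_le_prod (fun i _ => abs_nonneg _) fun i _ => hC i _
  exact h5.congr (Filter.Eventually.of_forall fun x => (hsplit x).symm)

end Pool.Agent.Lib.MP_d2370c_gt.SQ
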