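import Pool.Agent.Lib.MP_d2370c_gt.SQ.Mon

/-!
# The contribution of a nonzero frequency is controlled by the shifted kernels
-/

set_option autoImplicit false

open Finset MeasureTheory Filter Topology

namespace Pool.Agent.Lib.MP_d2370c_gt.SQ

open Pool.Agent.Lib.MP_d2370c_gt

variable {n N d : ℕ}

private theorem mn_pair (δ : ℝ) (hδ : 0 < δ) :
    FP (fun b => δ⁻¹ * bb (δ⁻¹ * b)) (fun t => KK (δ * t)) := by
  have h := FP_bb.scale δ⁻¹ (inv_pos.2 hδ)
  simp only [div_inv_eq_mul] at h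
  simpa only [mul_comm] using h

private theorem mn_pair1 (δ : ℝ) (hδ : 0 < δ) :
    FP (fun b => δ⁻¹ * b1 (δ⁻¹ * b)) (fun t => K1 (δ * t)) := by
  have h := FP_b1.scale δ⁻¹ (inv_pos.2 hδ)
  simp only [div_inv_eq_mul] at h
  simpa only [mul_comm] using h

private theorem mn_K1_le (t : ℝ) : K1 t ≤ 1 := by
  have h1 := K1_le t
  have h2 := KK_le t
  have h3 := KK_nonneg t
  have hpi : 6 / Real.pi ^ 2 ≤ 1 := by
    rw [div_le_one (by positivity)]
    nlinarith [Real.pi_gt_three]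
  calc K1 t ≤ 6 / Real.pi ^ 2 * KK t := h1
    _ ≤ 1 * 1 := by gcongr
    _ = 1 := one_mul 1

/-- the integrals over `ℝ^n` of the product of the kernels times bounded factors are bounded -/
private theorem mn_bound {u : Fin N → Fin n → ℝ} (hu : Inj u) {φ ρ : ℝ → ℝ} (hφ : FP φ ρ)
    (a : Fin n → ℝ) : ∃ C : ℝ, ∀ (h H : Fin n → ℝ → ℝ), (∀ k, FP (h k) (H k)) →
      (∀ k t, |H k t| ≤ 1) →
      ∫ c : Fin N → ℝ, (∏ i, φ (c i)) * ∏ k, h k (linT u c k + a k) ≤ C := by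
  have hint : Integrable fun x : Fin n → ℝ => ∏ i : Fin N, ρ (lin u x i) :=
    int_prod hu (fun _ => ρ) (fun _ => hφ.contF) (fun _ => hφ.intF) (fun _ => by
      obtain ⟨C, -, hC⟩ := hφ.bdd
      exact ⟨C, hC⟩)
  refine ⟨∫ x : Fin n → ℝ, ‖∏ i : Fin N, ρ (lin u x i)‖, fun h H hh hH => ?_⟩
  have h1 := reg_eq u (fun _ => φ) (fun _ => ρ) (fun _ => hφ) h H hh a
  have h2 : ‖∫ x : Fin n → ℝ, (((∏ i : Fin N, ρ (lin u x i)) * ∏ k, H k (x k) : ℝ) : ℂ) *
      ee (∑ k, x k * a k)‖ ≤ ∫ x : Fin n → ℝ, ‖∏ i : Fin N, ρ (lin u x i)‖ := by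
    refine norm_integral_le_of_norm_le hint.norm (Eventually.of_forall fun x => ?_)
    rw [norm_mul, norm_ee, mul_one, Complex.norm_real, norm_mul]
    refine mul_le_of_le_one_right (norm_nonneg _) ?_
    rw [Real.norm_eq_abs, Finset.abs_prod]
    exact Finset.prod_le_one (fun k _ => abs_nonneg _) (fun k _ => hH k _)
  rw [h1, Complex.norm_real] at h2
  exact (le_abs_self _).trans h2

theorem min_bound {u : Fin N → Fin n → ℝ} (hu : Inj u) (φ ρ h1 ρ1 : ℝ → ℝ) (hφ : FP φ ρ) (hφ0 : ∀ c, 0 ≤ φ c)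
    (hh1 : FP h1 ρ1) (E : ℝ → ℝ) (hE0 : ∀ c, 0 ≤ E c) (hE : ∀ c, E c * φ c ≤ h1 c) (θ : ℝ) (hθ0 : 0 ≤ θ)
    (h : (Fin n → ℝ) → ℝ) (Ch : ℝ) (hadd : ∀ a b, h (a + b) ≤ h a + h b) (hCh : ∀ b, h b ≤ Ch * ∑ k, |b k|) (R : ℝ)
    (hR : ∀ c : Fin N → ℝ, R ≤ h (fun k => -linT u c k) → 1 ≤ θ + ∑ i, E (c i)) (a : Fin n → ℝ) (ha : R < h a) :
    (1 - θ) * (SI u (fun _ => ρ) a).re ≤ ∑ i, (SI u (at1 ρ ρ1 i) a).re := by
  obtain ⟨C, hC⟩ := mn_bound hu hφ a
  set s : ℝ := h a - R with hs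
  have hs0 : 0 < s := sub_pos.2 ha
  set K : ℝ := (Ch / s) ^ 2 * n with hK
  have hK0 : 0 ≤ K := by positivity
  -- the inequality for a fixed regularization
  have hreg : ∀ δ : ℝ, 0 < δ →
      (1 - θ) * (∫ x : Fin n → ℝ, (((∏ i : Fin N, ρ (lin u x i)) * ∏ k, KK (δ * x k) : ℝ) : ℂ) *
        ee (∑ k, x k * a k)).re ≤
      ∑ i : Fin N, (∫ x : Fin n → ℝ, (((∏ j, at1 ρ ρ1 i j (lin u x j)) * ∏ k, KK (δ * x k) : ℝ) : ℂ) *
        ee (∑ k, x k * a k)).re + K * δ ^ 2 * (n * C) := by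
    intro δ hδ
    have hat : ∀ i j : Fin N, FP (at1 φ h1 i j) (at1 ρ ρ1 i j) := by
      intro i j
      unfold at1
      split_ifs
      · exact hh1
      · exact hφ
    have hmix : ∀ k l : Fin n,
        FP (if l = k then (fun b => δ⁻¹ * b1 (δ⁻¹ * b)) else (fun b => δ⁻¹ * bb (δ⁻¹ * b)))
          (if l = k then (fun t => K1 (δ * t)) else (fun t => KK (δ * t))) := by
      intro k l
      split_ifs
      · exact mn_pair1 δ hδ
      · exact mn_pair δ hδ
    have e1 := reg_eq u (fun _ => φ) (fun _ => ρ) (fun _ => hφ) (fun _ => fun b => δ⁻¹ * bb (δ⁻¹ * b))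
      (fun _ => fun t => KK (δ * t)) (fun _ => mn_pair δ hδ) a
    have e2 := fun i => reg_eq u (at1 φ h1 i) (at1 ρ ρ1 i) (hat i)
      (fun _ => fun b => δ⁻¹ * bb (δ⁻¹ * b))
      (fun _ => fun t => KK (δ * t)) (fun _ => mn_pair δ hδ) a
    have i1 := reg_int u (fun _ => φ) (fun _ => ρ) (fun _ => hφ) (fun _ => fun b => δ⁻¹ * bb (δ⁻¹ * b))
      (fun _ => fun t => KK (δ * t)) (fun _ => mn_pair δ hδ) a
    have i2 := fun i => reg_int u (at1 φ h1 i) (at1 ρ ρ1 i) (hat i)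
      (fun _ => fun b => δ⁻¹ * bb (δ⁻¹ * b))
      (fun _ => fun t => KK (δ * t)) (fun _ => mn_pair δ hδ) a
    have i3 := fun k => reg_int u (fun _ => φ) (fun _ => ρ) (fun _ => hφ)
      (fun l => if l = k then (fun b => δ⁻¹ * b1 (δ⁻¹ * b)) else (fun b => δ⁻¹ * bb (δ⁻¹ * b)))
      (fun l => if l = k then (fun t => K1 (δ * t)) else (fun t => KK (δ * t))) (hmix k) a
    have b3 := fun k => hC
      (fun l => if l = k then (fun b => δ⁻¹ * b1 (δ⁻¹ * b)) else (fun b => δ⁻¹ * bb (δ⁻¹ * b)))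
      (fun l => if l = k then (fun t => K1 (δ * t)) else (fun t => KK (δ * t))) (hmix k) (by
        intro l t
        by_cases hl : l = k
        · simp only [hl, if_true]
          rw [abs_of_nonneg (K1_nonneg _)]
          exact mn_K1_le _
        · simp only [hl, if_false]
          rw [abs_of_nonneg (KK_nonneg _)]
          exact KK_le _)
    -- pointwise
    have hpt : ∀ c : Fin N → ℝ,
        (1 - θ) * ((∏ i, φ (c i)) * ∏ k, δ⁻¹ * bb (δ⁻¹ * (linT u c k + a k))) ≤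
        ∑ i, ((∏ j, at1 φ h1 i j (c j)) * ∏ k, δ⁻¹ * bb (δ⁻¹ * (linT u c k + a k))) +
          K * δ ^ 2 * ∑ k, ((∏ i, φ (c i)) * ∏ l,
            (if l = k then (fun b => δ⁻¹ * b1 (δ⁻¹ * b)) else (fun b => δ⁻¹ * bb (δ⁻¹ * b)))
              (linT u c l + a l)) := by
      intro c
      set η : Fin n → ℝ := fun k => linT u c k + a k with hη
      have hP0 : 0 ≤ ∏ i, φ (c i) := Finset.prod_nonneg fun i _ => hφ0 _
      have hb0 : ∀ k, 0 ≤ δ⁻¹ * bb (δ⁻¹ * η k) := fun k =>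
        mul_nonneg (inv_pos.2 hδ).le (bb_nonneg _)
      have hB0 : 0 ≤ ∏ k, δ⁻¹ * bb (δ⁻¹ * η k) := Finset.prod_nonneg fun k _ => hb0 k
      have hE1 : 0 ≤ ∑ i, E (c i) := Finset.sum_nonneg fun i _ => hE0 _
      have hS0 : 0 ≤ ∑ k, η k ^ 2 := Finset.sum_nonneg fun k _ => sq_nonneg _
      have hkey : 1 - θ ≤ ∑ i, E (c i) + K * ∑ k, η k ^ 2 := by
        rcases le_or_gt R (h (fun k => -linT u c k)) with hc | hc
        · have := hR c hc
          have := mul_nonneg hK0 hS0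
          linarith
        · have h3 : h a ≤ h (fun k => -linT u c k) + h η := by
            have h4 : a = (fun k => -linT u c k) + η := by
              funext k
              simp [hη]
            conv_lhs => rw [h4]
            exact hadd _ _
          have h4 : s < Ch * ∑ k, |η k| := by
            have := hCh η
            linarith
          have h5 : 1 < Ch / s * ∑ k, |η k| := by
            rw [div_mul_eq_mul_div, lt_div_iff₀ hs0]
            linarith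
          have h6 : 1 ≤ (Ch / s * ∑ k, |η k|) ^ 2 := by nlinarith
          have h7 : (∑ k, |η k|) ^ 2 ≤ n * ∑ k, η k ^ 2 := by
            have := sq_sum_le_card_mul_sum_sq (s := (univ : Finset (Fin n))) (f := fun k => |η k|)
            simpa [Finset.card_univ, Fintype.card_fin, sq_abs] using this
          have h8 : (Ch / s * ∑ k, |η k|) ^ 2 ≤ K * ∑ k, η k ^ 2 := by
            rw [mul_pow, hK, mul_assoc]
            exact mul_le_mul_of_nonneg_left h7 (sq_nonneg _)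
          linarith
      have hG : ∀ i, E (c i) * ((∏ i, φ (c i)) * ∏ k, δ⁻¹ * bb (δ⁻¹ * η k)) ≤
          (∏ j, at1 φ h1 i j (c j)) * ∏ k, δ⁻¹ * bb (δ⁻¹ * η k) := by
        intro i
        have h3 : ∏ j, at1 φ h1 i j (c j) = h1 (c i) * ∏ j ∈ univ.erase i, φ (c j) := by
          rw [← Finset.mul_prod_erase univ _ (mem_univ i)]
          congr 1
          · simp [at1]
          · refine Finset.prod_congr rfl fun j hj => ?_
            simp [at1, Finset.ne_of_mem_erase hj]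
        have h4 : ∏ j, φ (c j) = φ (c i) * ∏ j ∈ univ.erase i, φ (c j) :=
          (Finset.mul_prod_erase univ _ (mem_univ i)).symm
        have h5 : 0 ≤ ∏ j ∈ univ.erase i, φ (c j) := Finset.prod_nonneg fun j _ => hφ0 _
        rw [h3, h4, ← mul_assoc]
        refine mul_le_mul_of_nonneg_right ?_ hB0
        rw [← mul_assoc]
        exact mul_le_mul_of_nonneg_right (hE _) h5
      have hH : ∀ k, η k ^ 2 * ((∏ i, φ (c i)) * ∏ k, δ⁻¹ * bb (δ⁻¹ * η k)) ≤
          δ ^ 2 * ((∏ i, φ (c i)) * ∏ l,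
            (if l = k then (fun b => δ⁻¹ * b1 (δ⁻¹ * b)) else (fun b => δ⁻¹ * bb (δ⁻¹ * b)))
              (η l)) := by
        intro k
        have h3 : ∏ l, (if l = k then (fun b => δ⁻¹ * b1 (δ⁻¹ * b))
              else (fun b => δ⁻¹ * bb (δ⁻¹ * b))) (η l) =
            δ⁻¹ * b1 (δ⁻¹ * η k) * ∏ l ∈ univ.erase k, δ⁻¹ * bb (δ⁻¹ * η l) := by
          rw [← Finset.mul_prod_erase univ _ (mem_univ k)]
          congr 1
          · simp
          · refine Finset.prod_congr rfl fun l hl => ?_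
            simp [Finset.ne_of_mem_erase hl]
        have h4 : ∏ l, δ⁻¹ * bb (δ⁻¹ * η l) =
            δ⁻¹ * bb (δ⁻¹ * η k) * ∏ l ∈ univ.erase k, δ⁻¹ * bb (δ⁻¹ * η l) :=
          (Finset.mul_prod_erase univ (fun l => δ⁻¹ * bb (δ⁻¹ * η l)) (mem_univ k)).symm
        have h5 : 0 ≤ ∏ l ∈ univ.erase k, δ⁻¹ * bb (δ⁻¹ * η l) :=
          Finset.prod_nonneg fun l _ => hb0 l
        have h6 : η k ^ 2 * (δ⁻¹ * bb (δ⁻¹ * η k)) ≤ δ ^ 2 * (δ⁻¹ * b1 (δ⁻¹ * η k)) := by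
          have h7 := bb_sq_le (δ⁻¹ * η k)
          have h8 : η k ^ 2 * (δ⁻¹ * bb (δ⁻¹ * η k)) =
              δ * ((δ⁻¹ * η k) ^ 2 * bb (δ⁻¹ * η k)) := by
            field_simp
          have h9 : δ ^ 2 * (δ⁻¹ * b1 (δ⁻¹ * η k)) = δ * b1 (δ⁻¹ * η k) := by
            field_simp
          rw [h8, h9]
          exact mul_le_mul_of_nonneg_left h7 hδ.le
        rw [h3, h4]
        calc η k ^ 2 * ((∏ i, φ (c i)) * (δ⁻¹ * bb (δ⁻¹ * η k) *
              ∏ l ∈ univ.erase k, δ⁻¹ * bb (δ⁻¹ * η l)))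
            = (η k ^ 2 * (δ⁻¹ * bb (δ⁻¹ * η k))) * ((∏ i, φ (c i)) *
              ∏ l ∈ univ.erase k, δ⁻¹ * bb (δ⁻¹ * η l)) := by ring
          _ ≤ (δ ^ 2 * (δ⁻¹ * b1 (δ⁻¹ * η k))) * ((∏ i, φ (c i)) *
              ∏ l ∈ univ.erase k, δ⁻¹ * bb (δ⁻¹ * η l)) :=
              mul_le_mul_of_nonneg_right h6 (mul_nonneg hP0 h5)
          _ = _ := by ring
      calc (1 - θ) * ((∏ i, φ (c i)) * ∏ k, δ⁻¹ * bb (δ⁻¹ * η k))
          ≤ (∑ i, E (c i) + K * ∑ k, η k ^ 2) *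
            ((∏ i, φ (c i)) * ∏ k, δ⁻¹ * bb (δ⁻¹ * η k)) :=
            mul_le_mul_of_nonneg_right hkey (mul_nonneg hP0 hB0)
        _ = ∑ i, E (c i) * ((∏ i, φ (c i)) * ∏ k, δ⁻¹ * bb (δ⁻¹ * η k)) +
            K * ∑ k, η k ^ 2 * ((∏ i, φ (c i)) * ∏ k, δ⁻¹ * bb (δ⁻¹ * η k)) := by
            rw [add_mul, Finset.sum_mul, mul_assoc, Finset.sum_mul]
        _ ≤ ∑ i, ((∏ j, at1 φ h1 i j (c j)) * ∏ k, δ⁻¹ * bb (δ⁻¹ * η k)) +
            K * ∑ k, δ ^ 2 * ((∏ i, φ (c i)) * ∏ l,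
              (if l = k then (fun b => δ⁻¹ * b1 (δ⁻¹ * b)) else (fun b => δ⁻¹ * bb (δ⁻¹ * b)))
                (η l)) :=
            add_le_add (Finset.sum_le_sum fun i _ => hG i)
              (mul_le_mul_of_nonneg_left (Finset.sum_le_sum fun k _ => hH k) hK0)
        _ = _ := by rw [← Finset.mul_sum]; ring
    -- integrate
    have hle := integral_mono (i1.const_mul (1 - θ))
      ((integrable_finset_sum univ fun i _ => i2 i).add
        ((integrable_finset_sum univ fun k _ => i3 k).const_mul (K * δ ^ 2))) hpt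
    have hsum : ∫ c : Fin N → ℝ, (∑ i, ((∏ j, at1 φ h1 i j (c j)) *
          ∏ k, δ⁻¹ * bb (δ⁻¹ * (linT u c k + a k))) +
          K * δ ^ 2 * ∑ k, ((∏ i, φ (c i)) * ∏ l,
            (if l = k then (fun b => δ⁻¹ * b1 (δ⁻¹ * b)) else (fun b => δ⁻¹ * bb (δ⁻¹ * b)))
              (linT u c l + a l))) =
        (∑ i, ∫ c : Fin N → ℝ, ((∏ j, at1 φ h1 i j (c j)) *
          ∏ k, δ⁻¹ * bb (δ⁻¹ * (linT u c k + a k)))) +
          K * δ ^ 2 * ∑ k, ∫ c : Fin N → ℝ, ((∏ i, φ (c i)) * ∏ l,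
            (if l = k then (fun b => δ⁻¹ * b1 (δ⁻¹ * b)) else (fun b => δ⁻¹ * bb (δ⁻¹ * b)))
              (linT u c l + a l)) := by
      rw [integral_add (integrable_finset_sum univ fun i _ => i2 i)
        ((integrable_finset_sum univ fun k _ => i3 k).const_mul (K * δ ^ 2)),
        integral_const_mul, integral_finset_sum univ fun i _ => i2 i,
        integral_finset_sum univ fun k _ => i3 k]
    rw [integral_const_mul] at hle
    have hb3 : ∑ k, ∫ c : Fin N → ℝ, ((∏ i, φ (c i)) * ∏ l,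
            (if l = k then (fun b => δ⁻¹ * b1 (δ⁻¹ * b)) else (fun b => δ⁻¹ * bb (δ⁻¹ * b)))
              (linT u c l + a l)) ≤ n * C := by
      refine (Finset.sum_le_card_nsmul univ _ C fun k _ => b3 k).trans ?_
      simp
    have hre1 := congrArg Complex.re e1
    have hre2 := fun i => congrArg Complex.re (e2 i)
    simp only [Complex.ofReal_re] at hre1 hre2
    rw [hre1]
    simp only [hre2]
    refine hle.trans ?_
    have h9 : K * δ ^ 2 * ∑ k, ∫ c : Fin N → ℝ, ((∏ i, φ (c i)) * ∏ l,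
            (if l = k then (fun b => δ⁻¹ * b1 (δ⁻¹ * b)) else (fun b => δ⁻¹ * bb (δ⁻¹ * b)))
              (linT u c l + a l)) ≤ K * δ ^ 2 * (n * C) :=
      mul_le_mul_of_nonneg_left hb3 (by positivity)
    exact (le_of_eq hsum).trans (by linarith)
  -- the limit
  have hlim1 := reg_lim hu (fun _ => φ) (fun _ => ρ) (fun _ => hφ) a
  have hlim2 : ∀ i, Tendsto (fun δ : ℝ => (∫ x : Fin n → ℝ,
      (((∏ j, at1 ρ ρ1 i j (lin u x j)) * ∏ k, KK (δ * x k) : ℝ) : ℂ) *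
        ee (∑ k, x k * a k)).re) (𝓝[>] 0) (𝓝 (SI u (at1 ρ ρ1 i) a).re) := by
    intro i
    have hat : ∀ j : Fin N, FP (at1 φ h1 i j) (at1 ρ ρ1 i j) := by
      intro j
      unfold at1
      split_ifs
      · exact hh1
      · exact hφ
    exact (Complex.continuous_re.tendsto _).comp (reg_lim hu (at1 φ h1 i) (at1 ρ ρ1 i) hat a)
  have hlim3 : Tendsto (fun δ : ℝ => K * δ ^ 2 * (n * C)) (𝓝[>] 0) (𝓝 0) := by
    have h3 : Continuous fun δ : ℝ => K * δ ^ 2 * (n * C) := by fun_prop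
    have h4 := (h3.tendsto 0).mono_left (nhdsWithin_le_nhds (s := Set.Ioi 0))
    simpa using h4
  have hA := ((Complex.continuous_re.tendsto _).comp hlim1).const_mul (1 - θ)
  have hB := (tendsto_finsetSum univ fun i _ => hlim2 i).add hlim3
  rw [add_zero] at hB
  refine le_of_tendsto_of_tendsto hA hB ?_
  filter_upwards [self_mem_nhdsWithin] with δ hδ
  exact hreg δ hδ

end Pool.Agent.Lib.MP_d2370c_gt.SQ
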