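import Pool.Agent.Lib.MP_d2370c_gt.SQ.Pair

/-!
# MP_d2370c_gt, sections and projections: the regularized Fourier integral

Fubini: `F i (t_i) = ∫ f i c * ee (c * t_i)`, `∫ H k x * ee (x * b) = h k b`, and
`∑ i, c i * lin u x i = ∑ k, x k * linT u c k`.
-/

set_option autoImplicit false

open Finset MeasureTheory Filter Topology

namespace Pool.Agent.Lib.MP_d2370c_gt.SQ

open Pool.Agent.Lib.MP_d2370c_gt

variable {n N d : ℕ}

private theorem rg_lin_linT (u : Fin N → Fin n → ℝ) (c : Fin N → ℝ) (x : Fin n → ℝ) :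
    ∑ i, c i * lin u x i = ∑ k, x k * linT u c k := by
  unfold lin linT
  simp_rw [Finset.mul_sum]
  rw [Finset.sum_comm]
  refine Finset.sum_congr rfl fun k _ => Finset.sum_congr rfl fun i _ => by ring

private theorem rg_cont_linT (u : Fin N → Fin n → ℝ) (k : Fin n) :
    Continuous fun c : Fin N → ℝ => linT u c k := by
  unfold linT
  fun_prop

private theorem rg_cont_lin (u : Fin N → Fin n → ℝ) (i : Fin N) :
    Continuous fun x : Fin n → ℝ => lin u x i := by
  unfold lin
  fun_prop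

/-- bounded products -/
private theorem rg_prod_bdd {m : ℕ} (g : Fin m → ℝ → ℝ) (hg : ∀ i, ∃ C : ℝ, 0 ≤ C ∧ ∀ t, |g i t| ≤ C) :
    ∃ C : ℝ, ∀ t : Fin m → ℝ, |∏ i, g i (t i)| ≤ C := by
  choose C hC0 hC using hg
  refine ⟨∏ i, C i, fun t => ?_⟩
  rw [Finset.abs_prod]
  exact Finset.prod_le_prod (fun i _ => abs_nonneg _) fun i _ => hC i (t i)

theorem reg_int (u : Fin N → Fin n → ℝ) (f F : Fin N → ℝ → ℝ) (hf : ∀ i, FP (f i) (F i)) (h H : Fin n → ℝ → ℝ)
    (hh : ∀ k, FP (h k) (H k)) (a : Fin n → ℝ) :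
    Integrable fun c : Fin N → ℝ => (∏ i, f i (c i)) * ∏ k, h k (linT u c k + a k) := by
  have h1 : Integrable fun c : Fin N → ℝ => ∏ i, f i (c i) :=
    Integrable.fintype_prod (f := f) fun i => (hf i).intf
  obtain ⟨C, hC⟩ := rg_prod_bdd h fun k => (hh k).symm.bdd
  have h2 : Continuous fun c : Fin N → ℝ => ∏ k, h k (linT u c k + a k) := by
    refine continuous_finsetProd _ fun k _ => (hh k).contf.comp ?_
    exact (rg_cont_linT u k).add continuous_const
  exact h1.mul_bdd (c := C) h2.aestronglyMeasurable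
    (ae_of_all _ fun c => by
      rw [Real.norm_eq_abs]
      exact hC fun k => linT u c k + a k)

theorem reg_eq (u : Fin N → Fin n → ℝ) (f F : Fin N → ℝ → ℝ) (hf : ∀ i, FP (f i) (F i)) (h H : Fin n → ℝ → ℝ)
    (hh : ∀ k, FP (h k) (H k)) (a : Fin n → ℝ) :
    ∫ x : Fin n → ℝ, (((∏ i, F i (lin u x i)) * ∏ k, H k (x k) : ℝ) : ℂ) * ee (∑ k, x k * a k) =
      ((∫ c : Fin N → ℝ, (∏ i, f i (c i)) * ∏ k, h k (linT u c k + a k) : ℝ) : ℂ) := by
  -- the joint function
  set Φ : (Fin n → ℝ) → (Fin N → ℝ) → ℂ := fun x c =>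
    ((((∏ k, H k (x k)) * ∏ i, f i (c i) : ℝ) : ℂ)) *
      ee (∑ k, x k * (linT u c k + a k)) with hΦ
  have hX : ∀ x : Fin n → ℝ, (((∏ i, F i (lin u x i)) * ∏ k, H k (x k) : ℝ) : ℂ) *
      ee (∑ k, x k * a k) = ∫ c, Φ x c := by
    intro x
    have e1 : ((∏ i, F i (lin u x i) : ℝ) : ℂ) =
        ∫ c : Fin N → ℝ, ∏ i, ((f i (c i) : ℂ) * ee (c i * lin u x i)) := by
      rw [integral_fintype_prod_volume_eq_prod (fun (i : Fin N) (c : ℝ) =>
        (f i c : ℂ) * ee (c * lin u x i))]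
      push_cast
      exact Finset.prod_congr rfl fun i _ => ((hf i).fwd _).symm
    rw [Complex.ofReal_mul, e1, mul_assoc, ← integral_mul_const]
    refine integral_congr_ae (ae_of_all _ fun c => ?_)
    simp only [hΦ]
    rw [Finset.prod_mul_distrib, ← ee_sum, rg_lin_linT]
    have e2 : ee (∑ k, x k * (linT u c k + a k)) =
        ee (∑ k, x k * linT u c k) * ee (∑ k, x k * a k) := by
      rw [← ee_add, ← Finset.sum_add_distrib]
      congr 1
      refine Finset.sum_congr rfl fun k _ => by ring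
    rw [e2]
    push_cast
    ring
  have hC : ∀ c : Fin N → ℝ, ∫ x, Φ x c =
      (((∏ i, f i (c i)) * ∏ k, h k (linT u c k + a k) : ℝ) : ℂ) := by
    intro c
    have e1 : ∀ x : Fin n → ℝ, Φ x c = ((∏ i, f i (c i) : ℝ) : ℂ) *
        ∏ k, ((H k (x k) : ℂ) * ee (x k * (linT u c k + a k))) := by
      intro x
      simp only [hΦ]
      rw [Finset.prod_mul_distrib, ← ee_sum]
      push_cast
      ring
    simp_rw [e1]
    rw [integral_const_mul, integral_fintype_prod_volume_eq_prod (fun (k : Fin n) (x : ℝ) =>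
        (H k x : ℂ) * ee (x * (linT u c k + a k)))]
    push_cast
    congr 1
    exact Finset.prod_congr rfl fun k _ => (hh k).bwd _
  have hint : Integrable (Function.uncurry Φ) ((volume : Measure (Fin n → ℝ)).prod
      (volume : Measure (Fin N → ℝ))) := by
    have h1 : Integrable fun x : Fin n → ℝ => ∏ k, H k (x k) :=
      Integrable.fintype_prod (f := H) fun k => (hh k).intF
    have h2 : Integrable fun c : Fin N → ℝ => ∏ i, f i (c i) :=
      Integrable.fintype_prod (f := f) fun i => (hf i).intf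
    have h3 := h1.mul_prod h2
    have h4 := h3.ofReal (𝕜 := ℂ)
    have h5 : Continuous fun z : (Fin n → ℝ) × (Fin N → ℝ) =>
        ee (∑ k, z.1 k * (linT u z.2 k + a k)) := by
      refine continuous_ee.comp (continuous_finsetSum _ fun k _ => ?_)
      refine Continuous.mul (by fun_prop) (Continuous.add ?_ continuous_const)
      exact (rg_cont_linT u k).comp continuous_snd
    refine h4.mul_bdd (c := 1) h5.aestronglyMeasurable (ae_of_all _ fun z => ?_)
    rw [norm_ee]
  calc ∫ x : Fin n → ℝ, (((∏ i, F i (lin u x i)) * ∏ k, H k (x k) : ℝ) : ℂ) * ee (∑ k, x k * a k)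
      = ∫ x : Fin n → ℝ, ∫ c, Φ x c := integral_congr_ae (ae_of_all _ hX)
    _ = ∫ c, ∫ x : Fin n → ℝ, Φ x c := integral_integral_swap hint
    _ = ∫ c : Fin N → ℝ, (((∏ i, f i (c i)) * ∏ k, h k (linT u c k + a k) : ℝ) : ℂ) :=
        integral_congr_ae (ae_of_all _ hC)
    _ = _ := integral_ofReal

end Pool.Agent.Lib.MP_d2370c_gt.SQ
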