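import Pool.Agent.Lib.MP_d2370c_gt.SQ.Int
import Pool.Agent.Lib.MP_d2370c_gt.SQ.Reg
import Pool.Agent.Lib.MP_d2370c_gt.SQ.Base

/-!
# SQ: regularization and monotonicity (row B3)
-/

set_option autoImplicit false

open Finset MeasureTheory Filter Topology

namespace Pool.Agent.Lib.MP_d2370c_gt.SQ

open Pool.Agent.Lib.MP_d2370c_gt

variable {n N d : ℕ}

theorem reg_lim {u : Fin N → Fin n → ℝ} (hu : Inj u) (f F : Fin N → ℝ → ℝ) (hf : ∀ i, FP (f i) (F i)) (a : Fin n → ℝ) :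
    Tendsto (fun δ : ℝ => ∫ x : Fin n → ℝ, (((∏ i, F i (lin u x i)) * ∏ k, KK (δ * x k) : ℝ) : ℂ) * ee (∑ k, x k * a k))
      (𝓝[>] 0) (𝓝 (SI u F a)) := by
  have hint : Integrable fun x : Fin n → ℝ => ∏ i, F i (lin u x i) :=
    int_prod hu F (fun i => (hf i).contF) (fun i => (hf i).intF) fun i => by
      obtain ⟨C, _, hC⟩ := (hf i).bdd
      exact ⟨C, hC⟩
  have hKc : Continuous KK := FP_bb.contF
  have hlin : ∀ i : Fin N, Continuous fun x : Fin n → ℝ => lin u x i := by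
    intro i
    unfold lin
    fun_prop
  have hFc : Continuous fun x : Fin n → ℝ => ∏ i, F i (lin u x i) :=
    continuous_finsetProd _ fun i _ => (hf i).contF.comp (hlin i)
  have hee : Continuous fun x : Fin n → ℝ => ee (∑ k, x k * a k) := continuous_ee.comp (by fun_prop)
  unfold SI
  refine tendsto_integral_filter_of_dominated_convergence (fun x => ‖∏ i, F i (lin u x i)‖) ?_ ?_ hint.norm ?_
  · filter_upwards with δ
    have h1 : Continuous fun x : Fin n → ℝ => (∏ i, F i (lin u x i)) * ∏ k, KK (δ * x k) := by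
      refine hFc.mul (continuous_finsetProd _ fun k _ => hKc.comp ?_)
      fun_prop
    exact ((Complex.continuous_ofReal.comp h1).mul hee).aestronglyMeasurable
  · filter_upwards with δ
    filter_upwards with x
    rw [norm_mul, norm_ee, mul_one, Complex.norm_real, norm_mul]
    have h2 : ‖∏ k, KK (δ * x k)‖ ≤ 1 := by
      rw [Real.norm_eq_abs, abs_of_nonneg (prod_nonneg fun k _ => KK_nonneg _)]
      exact prod_le_one (fun k _ => KK_nonneg _) fun k _ => KK_le _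
    calc ‖∏ i, F i (lin u x i)‖ * ‖∏ k, KK (δ * x k)‖ ≤ ‖∏ i, F i (lin u x i)‖ * 1 :=
          mul_le_mul_of_nonneg_left h2 (norm_nonneg _)
      _ = _ := mul_one _
  · filter_upwards with x
    refine Tendsto.mul_const _ ?_
    have h3 : Tendsto (fun δ : ℝ => ∏ k, KK (δ * x k)) (𝓝[>] 0) (𝓝 1) := by
      have h4 : Continuous fun δ : ℝ => ∏ k, KK (δ * x k) := by
        refine continuous_finsetProd _ fun k _ => hKc.comp ?_
        fun_prop
      have h5 := h4.tendsto 0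
      have h6 : ∏ k : Fin n, KK (0 * x k) = 1 := by
        refine prod_eq_one fun k _ => ?_
        rw [zero_mul, KK_zero]
      rw [h6] at h5
      exact h5.mono_left nhdsWithin_le_nhds
    have h7 : Tendsto (fun δ : ℝ => (∏ i, F i (lin u x i)) * ∏ k, KK (δ * x k)) (𝓝[>] 0)
        (𝓝 ((∏ i, F i (lin u x i)) * 1)) := h3.const_mul _
    rw [mul_one] at h7
    exact (Complex.continuous_ofReal.tendsto _).comp h7

theorem mon {u : Fin N → Fin n → ℝ} (hu : Inj u) (f F g G : Fin N → ℝ → ℝ) (hf : ∀ i, FP (f i) (F i))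
    (hg : ∀ i, FP (g i) (G i)) (hfg : ∀ i x, |f i x| ≤ g i x) (a : Fin n → ℝ) : ‖SI u F a‖ ≤ (SI u G a).re := by
  have h1 := (reg_lim hu f F hf a).norm
  have h2 : Tendsto (fun δ : ℝ => (∫ x : Fin n → ℝ,
      (((∏ i, G i (lin u x i)) * ∏ k, KK (δ * x k) : ℝ) : ℂ) * ee (∑ k, x k * a k)).re) (𝓝[>] 0) (𝓝 (SI u G a).re) :=
    (Complex.continuous_re.tendsto _).comp (reg_lim hu g G hg a)
  refine le_of_tendsto_of_tendsto h1 h2 ?_
  filter_upwards [self_mem_nhdsWithin] with δ hδ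
  have hδ0 : (0 : ℝ) < δ := hδ
  have hh : ∀ k : Fin n, FP (fun x => δ⁻¹ * bb (δ⁻¹ * x)) (fun t => KK (t / δ⁻¹)) := fun _ =>
    FP_bb.scale δ⁻¹ (inv_pos.2 hδ0)
  have e1 : ∀ t : ℝ, KK (t / δ⁻¹) = KK (δ * t) := by
    intro t
    rw [div_inv_eq_mul, mul_comm]
  have e2 := reg_eq u f F hf (fun _ : Fin n => fun x => δ⁻¹ * bb (δ⁻¹ * x)) (fun _ : Fin n => fun t => KK (t / δ⁻¹)) hh a
  have e3 := reg_eq u g G hg (fun _ : Fin n => fun x => δ⁻¹ * bb (δ⁻¹ * x)) (fun _ : Fin n => fun t => KK (t / δ⁻¹)) hh a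
  simp only [e1] at e2 e3
  rw [e2, e3, Complex.ofReal_re, Complex.norm_real]
  refine norm_integral_le_of_norm_le
    (reg_int u g G hg (fun _ : Fin n => fun x => δ⁻¹ * bb (δ⁻¹ * x)) (fun _ : Fin n => fun t => KK (t / δ⁻¹)) hh a) ?_
  filter_upwards with c
  have h3 : 0 ≤ ∏ k : Fin n, δ⁻¹ * bb (δ⁻¹ * (linT u c k + a k)) :=
    prod_nonneg fun k _ => mul_nonneg (inv_nonneg.2 hδ0.le) (bb_nonneg _)
  rw [norm_mul, Real.norm_eq_abs, Real.norm_eq_abs, abs_of_nonneg h3, Finset.abs_prod]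
  exact mul_le_mul_of_nonneg_right (prod_le_prod (fun i _ => abs_nonneg _) fun i _ => hfg i _) h3

end Pool.Agent.Lib.MP_d2370c_gt.SQ
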