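import Mathlib
import Pool.Agent.Lib.MP_d2370c_gt.SQ.Cube
import Pool.Agent.Lib.MP_d2370c_gt.SQ.Ball

/-!
# Subquotients of the unit balls of the p norms
-/

set_option autoImplicit false

open Finset MeasureTheory Filter Topology

namespace Pool.Agent.Lib.MP_d2370c_gt.SQ

open Pool.Agent.Lib.MP_d2370c_gt

variable {n N d : ℕ}

theorem c4d_lin_scale (u : Fin N → Fin n → ℝ) (c : ℝ) (x : Fin n → ℝ) (i : Fin N) :
    lin (fun i k => c * u i k) x i = c * lin u x i := by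
  simp only [lin, Finset.mul_sum, mul_assoc]

theorem c4d_inj_scale {u : Fin N → Fin n → ℝ} (hu : Inj u) {c : ℝ} (hc : c ≠ 0) :
    Inj (fun i k => c * u i k) := by
  intro x hx
  apply hu x
  ext i
  have h := congrFun hx i
  rw [c4d_lin_scale] at h
  simpa [hc] using h

theorem c4d_convex_ball (p : ℝ) (hp : 1 ≤ p) : Convex ℝ {t : Fin N → ℝ | ∑ j, |t j| ^ p ≤ 1} := by
  intro s hs r hr a b ha hb hab
  simp only [Set.mem_setOf_eq, Pi.add_apply, Pi.smul_apply, smul_eq_mul] at hs hr ⊢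
  calc ∑ j, |a * s j + b * r j| ^ p ≤ ∑ j, (a * |s j| ^ p + b * |r j| ^ p) := by
        refine Finset.sum_le_sum fun j _ => ?_
        have h1 : |a * s j + b * r j| ≤ a * |s j| + b * |r j| := by
          calc |a * s j + b * r j| ≤ |a * s j| + |b * r j| := abs_add_le _ _
            _ = a * |s j| + b * |r j| := by rw [abs_mul, abs_mul, abs_of_nonneg ha, abs_of_nonneg hb]
        calc |a * s j + b * r j| ^ p ≤ (a * |s j| + b * |r j|) ^ p :=
              Real.rpow_le_rpow (abs_nonneg _) h1 (by linarith)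
          _ ≤ a * |s j| ^ p + b * |r j| ^ p := by
              have := (convexOn_rpow hp).2 (x := |s j|) (y := |r j|)
                (Set.mem_Ici.mpr (abs_nonneg _)) (Set.mem_Ici.mpr (abs_nonneg _)) ha hb hab
              simpa using this
    _ = a * ∑ j, |s j| ^ p + b * ∑ j, |r j| ^ p := by
        rw [Finset.sum_add_distrib, Finset.mul_sum, Finset.mul_sum]
    _ ≤ a * 1 + b * 1 := by gcongr
    _ = 1 := by linarith

theorem c4d_convex (u : Fin N → Fin n → ℝ) (v : Fin n → Fin d → ℝ) (x0 : Fin d → ℝ) (T : Set (Fin N → ℝ))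
    (hT : Convex ℝ T) : Convex ℝ (subq u v x0 T) := by
  rintro _ ⟨x, hx, rfl⟩ _ ⟨y, hy, rfl⟩ a b ha hb hab
  refine ⟨a • x + b • y, ?_, ?_⟩
  · have h := hT hx hy ha hb hab
    have e : lin u (a • x + b • y) = a • lin u x + b • lin u y := by
      ext i
      simp only [lin, Pi.add_apply, Pi.smul_apply, smul_eq_mul, Finset.mul_sum, ← Finset.sum_add_distrib]
      exact Finset.sum_congr rfl fun k _ => by ring
    rw [e]
    exact h
  · ext i
    simp only [XX, Pi.add_apply, Pi.smul_apply, smul_eq_mul]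
    have e : ∑ j, (a * x j + b * y j) * v j i = a * ∑ j, x j * v j i + b * ∑ j, y j * v j i := by
      rw [Finset.mul_sum, Finset.mul_sum, ← Finset.sum_add_distrib]
      exact Finset.sum_congr rfl fun j _ => by ring
    rw [e]
    have hb' : b = 1 - a := by linarith
    subst hb'
    ring

/-- small exponents, outer inequality -/
theorem c4d_small_out (hN : 0 < N) (p : ℝ) (hp : 1 ≤ p) (s : Fin N → ℝ) (hs : ∑ j, |s j| ^ p ≤ 1) :
    ∑ j, |(N : ℝ) ^ (1 / p) * s j| ≤ N := by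
  have hN' : (0 : ℝ) < N := by exact_mod_cast hN
  have hp0 : 0 < p := by linarith
  set c : ℝ := (N : ℝ) ^ (1 / p) with hc
  have hcpos : 0 < c := Real.rpow_pos_of_pos hN' _
  have hcp : c ^ p = N := by
    rw [hc, ← Real.rpow_mul hN'.le]
    simp [hp0.ne']
  simp only [abs_mul, abs_of_pos hcpos]
  rw [← Finset.mul_sum]
  have h1 := Real.rpow_sum_le_const_mul_sum_rpow_of_nonneg (s := (Finset.univ : Finset (Fin N)))
    (f := fun j => |s j|) (p := p) hp (fun j _ => abs_nonneg _)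
  simp only [Finset.card_univ, Fintype.card_fin] at h1
  have hS0 : 0 ≤ ∑ j, |s j| := Finset.sum_nonneg fun j _ => abs_nonneg _
  have h2 : (c * ∑ j, |s j|) ^ p ≤ (N : ℝ) ^ p := by
    rw [Real.mul_rpow hcpos.le hS0, hcp]
    calc (N : ℝ) * (∑ j, |s j|) ^ p ≤ N * ((N : ℝ) ^ (p - 1) * ∑ j, |s j| ^ p) := by gcongr
      _ ≤ N * ((N : ℝ) ^ (p - 1) * 1) := by gcongr
      _ = (N : ℝ) ^ p := by
          rw [Real.rpow_sub hN', Real.rpow_one]
          field_simp
  exact (Real.rpow_le_rpow_iff (by positivity) hN'.le hp0).mp h2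

/-- small exponents, inner inequality -/
theorem c4d_small_in (hN : 0 < N) (p : ℝ) (hp : 1 ≤ p) (hp2 : p ≤ 2) (s : Fin N → ℝ)
    (hs : ∑ j, ((N : ℝ) ^ (1 / p) * s j) ^ 2 ≤ N) : ∑ j, |s j| ^ p ≤ 1 := by
  have hN' : (0 : ℝ) < N := by exact_mod_cast hN
  have hp0 : 0 < p := by linarith
  set c : ℝ := (N : ℝ) ^ (1 / p) with hc
  have hcpos : 0 < c := Real.rpow_pos_of_pos hN' _
  have hcp : c ^ p = N := by
    rw [hc, ← Real.rpow_mul hN'.le]
    simp [hp0.ne']
  have hcs : ∑ j, |c * s j| ^ p = N * ∑ j, |s j| ^ p := by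
    rw [Finset.mul_sum]
    refine Finset.sum_congr rfl fun j _ => ?_
    rw [abs_mul, abs_of_pos hcpos, Real.mul_rpow hcpos.le (abs_nonneg _), hcp]
  have h1 := Real.rpow_sum_le_const_mul_sum_rpow_of_nonneg (s := (Finset.univ : Finset (Fin N)))
    (f := fun j => |c * s j| ^ p) (p := 2 / p) (by rw [le_div_iff₀ hp0]; linarith)
    (fun j _ => Real.rpow_nonneg (abs_nonneg _) _)
  have h2 : ∀ j, (|c * s j| ^ p) ^ (2 / p) = (c * s j) ^ 2 := by
    intro j
    rw [← Real.rpow_mul (abs_nonneg _), mul_div_cancel₀ _ hp0.ne', Real.rpow_two, sq_abs]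
  simp only [h2, Finset.card_univ, Fintype.card_fin] at h1
  have h3 : (∑ j, |c * s j| ^ p) ^ (2 / p) ≤ (N : ℝ) ^ (2 / p) := by
    calc (∑ j, |c * s j| ^ p) ^ (2 / p) ≤ (N : ℝ) ^ (2 / p - 1) * ∑ j, (c * s j) ^ 2 := h1
      _ ≤ (N : ℝ) ^ (2 / p - 1) * N := by gcongr
      _ = (N : ℝ) ^ (2 / p) := by
          rw [Real.rpow_sub hN', Real.rpow_one]
          field_simp
  have h4 : ∑ j, |c * s j| ^ p ≤ N :=
    (Real.rpow_le_rpow_iff (Finset.sum_nonneg fun j _ => Real.rpow_nonneg (abs_nonneg _) _)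
      hN'.le (by positivity)).mp h3
  rw [hcs] at h4
  nlinarith

/-- large exponents, inner inequality -/
theorem c4d_large_in (hN : 0 < N) (p : ℝ) (hp : 1 ≤ p) (s : Fin N → ℝ)
    (hs : ∀ j, |(N : ℝ) ^ (1 / p) * s j| ≤ 1) : ∑ j, |s j| ^ p ≤ 1 := by
  have hN' : (0 : ℝ) < N := by exact_mod_cast hN
  have hp0 : 0 < p := by linarith
  set c : ℝ := (N : ℝ) ^ (1 / p) with hc
  have hcpos : 0 < c := Real.rpow_pos_of_pos hN' _
  have hcp : c ^ p = N := by
    rw [hc, ← Real.rpow_mul hN'.le]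
    simp [hp0.ne']
  have h1 : ∀ j, |s j| ^ p ≤ 1 / N := by
    intro j
    have h2 : |c * s j| ^ p ≤ 1 := Real.rpow_le_one (abs_nonneg _) (hs j) hp0.le
    rw [abs_mul, abs_of_pos hcpos, Real.mul_rpow hcpos.le (abs_nonneg _), hcp] at h2
    rw [le_div_iff₀ hN']
    linarith
  calc ∑ j, |s j| ^ p ≤ ∑ _j : Fin N, 1 / (N : ℝ) := Finset.sum_le_sum fun j _ => h1 j
    _ = 1 := by
        rw [Finset.sum_const, Finset.card_univ, Fintype.card_fin, nsmul_eq_mul]
        field_simp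

/-- large exponents, outer inequality -/
theorem c4d_large_out (hN : 0 < N) (p : ℝ) (hp : 2 ≤ p) (s : Fin N → ℝ) (hs : ∑ j, |s j| ^ p ≤ 1) :
    ∑ j, ((N : ℝ) ^ (1 / p) * s j) ^ 2 ≤ N := by
  have hN' : (0 : ℝ) < N := by exact_mod_cast hN
  have hp0 : 0 < p := by linarith
  set c : ℝ := (N : ℝ) ^ (1 / p) with hc
  have hcpos : 0 < c := Real.rpow_pos_of_pos hN' _
  have hcp : c ^ p = N := by
    rw [hc, ← Real.rpow_mul hN'.le]
    simp [hp0.ne']
  have hcs : ∑ j, |c * s j| ^ p = N * ∑ j, |s j| ^ p := by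
    rw [Finset.mul_sum]
    refine Finset.sum_congr rfl fun j _ => ?_
    rw [abs_mul, abs_of_pos hcpos, Real.mul_rpow hcpos.le (abs_nonneg _), hcp]
  have h1 := Real.rpow_sum_le_const_mul_sum_rpow_of_nonneg (s := (Finset.univ : Finset (Fin N)))
    (f := fun j => (c * s j) ^ 2) (p := p / 2) (by linarith) (fun j _ => sq_nonneg _)
  have h2 : ∀ j, ((c * s j) ^ 2) ^ (p / 2) = |c * s j| ^ p := by
    intro j
    rw [← sq_abs, ← Real.rpow_two, ← Real.rpow_mul (abs_nonneg _)]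
    congr 1
    ring
  simp only [h2, Finset.card_univ, Fintype.card_fin] at h1
  have h3 : (∑ j, (c * s j) ^ 2) ^ (p / 2) ≤ (N : ℝ) ^ (p / 2) := by
    calc (∑ j, (c * s j) ^ 2) ^ (p / 2) ≤ (N : ℝ) ^ (p / 2 - 1) * ∑ j, |c * s j| ^ p := h1
      _ ≤ (N : ℝ) ^ (p / 2 - 1) * N := by
          have h5 : ∑ j, |c * s j| ^ p ≤ N := by rw [hcs]; nlinarith
          gcongr
      _ = (N : ℝ) ^ (p / 2) := by
          rw [Real.rpow_sub hN', Real.rpow_one]
          field_simp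
  exact (Real.rpow_le_rpow_iff (Finset.sum_nonneg fun j _ => sq_nonneg _) hN'.le (by positivity)).mp h3

theorem width_subq_p (p : ℝ) (hp : 1 ≤ p) {u : Fin N → Fin n → ℝ} (hu : Inj u)
    (v : Fin n → Fin d → ℝ) (x0 : Fin d → ℝ) (hint : (interior (subq u v x0 {t | ∑ j, |t j| ^ p ≤ 1})).Nonempty)
    (hfree : ∀ z : Fin d → ℤ, (fun i => (z i : ℝ)) ∉ interior (subq u v x0 {t | ∑ j, |t j| ^ p ≤ 1})) :
    ∃ y : Fin d → ℤ, y ≠ 0 ∧ ∀ z ∈ subq u v x0 {t | ∑ j, |t j| ^ p ≤ 1}, ∀ z' ∈ subq u v x0 {t | ∑ j, |t j| ^ p ≤ 1},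
      ∑ i, (z i - z' i) * (y i : ℝ) ≤ 9 / 4 * N := by
  have hc := c4d_convex u v x0 _ (c4d_convex_ball (N := N) p hp)
  rcases Nat.eq_zero_or_pos N with hN | hN
  · subst hN
    have h := width_le_ballSec (subq u v x0 {t | ∑ j, |t j| ^ p ≤ 1}) hc hint hfree hu v x0 1 zero_le_one ?_ ?_
    · simpa using h
    · intro x _
      exact ⟨x, by simp, rfl⟩
    · rintro _ ⟨x, _, rfl⟩
      exact ⟨x, by simp, rfl⟩
  have hN' : (0 : ℝ) < N := by exact_mod_cast hN
  have hcpos : 0 < (N : ℝ) ^ (1 / p) := Real.rpow_pos_of_pos hN' _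
  have hinj := c4d_inj_scale hu hcpos.ne'
  rcases le_total p 2 with hp2 | hp2
  · obtain ⟨y, hy0, hy⟩ := width_le_ballSec (subq u v x0 {t | ∑ j, |t j| ^ p ≤ 1}) hc hint hfree hinj v x0 1 zero_le_one
      (fun x hx => by
        refine ⟨x, ?_, rfl⟩
        simp only [c4d_lin_scale] at hx
        exact c4d_small_in hN p hp hp2 _ hx)
      (by
        rintro _ ⟨x, hx, rfl⟩
        refine ⟨x, ?_, rfl⟩
        simp only [c4d_lin_scale, one_mul]
        exact c4d_small_out hN p hp _ hx)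
    refine ⟨y, hy0, fun z hz z' hz' => (hy z hz z' hz').trans ?_⟩
    nlinarith
  · obtain ⟨y, hy0, hy⟩ := width_le_cubeSec (subq u v x0 {t | ∑ j, |t j| ^ p ≤ 1}) hc hint hfree hinj v x0 1 zero_le_one
      (fun x hx => by
        refine ⟨x, ?_, rfl⟩
        simp only [c4d_lin_scale] at hx
        exact c4d_large_in hN p hp _ hx)
      (by
        rintro _ ⟨x, hx, rfl⟩
        refine ⟨x, ?_, rfl⟩
        simp only [c4d_lin_scale, one_pow, one_mul]
        exact c4d_large_out hN p hp2 _ hx)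
    refine ⟨y, hy0, fun z hz z' hz' => (hy z hz z' hz').trans ?_⟩
    nlinarith

end Pool.Agent.Lib.MP_d2370c_gt.SQ
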