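import Pool.Agent.Lib.MP_d2370c_gt.SQ.Defs

/-!
# Fourier pairs: elementary operations
-/

set_option autoImplicit false

open Finset MeasureTheory

namespace Pool.Agent.Lib.MP_d2370c_gt.SQ

open Pool.Agent.Lib.MP_d2370c_gt

theorem pair_int {f : ℝ → ℝ} (hf : Integrable f) (t : ℝ) :
    Integrable fun x => (f x : ℂ) * ee (x * t) := by
  refine Integrable.mono' hf.norm ?_ (ae_of_all _ fun x => ?_)
  · exact hf.ofReal.aestronglyMeasurable.mul
      (continuous_ee.comp (continuous_id.mul continuous_const)).aestronglyMeasurable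
  · rw [norm_mul, norm_ee, mul_one, Complex.norm_real]

theorem pair_ee_neg (x : ℝ) : ee (-x) = (starRingEnd ℂ) (ee x) := by
  unfold ee
  rw [← Complex.exp_conj]
  congr 1
  simp only [map_mul, Complex.conj_ofReal, Complex.conj_I, map_ofNat]
  push_cast
  ring

theorem FP.symm {f F : ℝ → ℝ} (h : FP f F) : FP F f :=
  ⟨h.contF, h.contf, h.intF, h.intf, h.bwd, h.fwd⟩

theorem pair_add {f g : ℝ → ℝ} (hf : Integrable f) (hg : Integrable g) (t : ℝ) :
    ∫ x, ((f x + g x : ℝ) : ℂ) * ee (x * t) =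
      (∫ x, (f x : ℂ) * ee (x * t)) + ∫ x, (g x : ℂ) * ee (x * t) := by
  rw [← integral_add (pair_int hf t) (pair_int hg t)]
  congr 1
  funext x
  push_cast
  ring

theorem pair_smul {f : ℝ → ℝ} (c t : ℝ) :
    ∫ x, ((c * f x : ℝ) : ℂ) * ee (x * t) = (c : ℂ) * ∫ x, (f x : ℂ) * ee (x * t) := by
  rw [← integral_const_mul]
  congr 1
  funext x
  push_cast
  ring

theorem FP.add {f F g G : ℝ → ℝ} (h : FP f F) (h' : FP g G) :
    FP (fun x => f x + g x) (fun t => F t + G t) := by
  refine ⟨h.contf.add h'.contf, h.contF.add h'.contF, h.intf.add h'.intf, h.intF.add h'.intF,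
    fun t => ?_, fun x => ?_⟩
  · rw [pair_add h.intf h'.intf, h.fwd, h'.fwd]
    push_cast
    rfl
  · rw [pair_add h.intF h'.intF, h.bwd, h'.bwd]
    push_cast
    rfl

theorem FP.smul {f F : ℝ → ℝ} (h : FP f F) (c : ℝ) : FP (fun x => c * f x) (fun t => c * F t) := by
  refine ⟨continuous_const.mul h.contf, continuous_const.mul h.contF, h.intf.const_mul c,
    h.intF.const_mul c, fun t => ?_, fun x => ?_⟩
  · rw [pair_smul, h.fwd]
    push_cast
    rfl
  · rw [pair_smul, h.bwd]
    push_cast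
    rfl

theorem FP.zero : FP (fun _ => 0) (fun _ => 0) := by
  refine ⟨continuous_const, continuous_const, integrable_zero _ _ _, integrable_zero _ _ _,
    fun t => ?_, fun x => ?_⟩
  · simp
  · simp

/-- substitution -/
theorem FP.scale {f F : ℝ → ℝ} (h : FP f F) (α : ℝ) (hα : 0 < α) :
    FP (fun x => α * f (α * x)) (fun t => F (t / α)) := by
  have hα' : α ≠ 0 := hα.ne'
  have hi : Integrable fun x => f (α * x) := h.intf.comp_mul_left' hα'
  have hi2 : Integrable fun t => F (t / α) := by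
    have := h.intF.comp_mul_left' (inv_ne_zero hα')
    refine this.congr (ae_of_all _ fun t => ?_)
    change F (α⁻¹ * t) = F (t / α)
    rw [div_eq_inv_mul]
  refine ⟨continuous_const.mul (h.contf.comp (continuous_const.mul continuous_id)),
    h.contF.comp (continuous_id.div_const α), hi.const_mul α, hi2, fun t => ?_, fun x => ?_⟩
  · have h1 := Measure.integral_comp_mul_left
      (fun y : ℝ => ((α * f y : ℝ) : ℂ) * ee (y * (t / α))) α
    have h2 : ∀ x : ℝ, ((α * f (α * x) : ℝ) : ℂ) * ee (α * x * (t / α)) =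
        ((α * f (α * x) : ℝ) : ℂ) * ee (x * t) := by
      intro x
      have : α * x * (t / α) = x * t := by field_simp
      rw [this]
    simp only [h2] at h1
    rw [h1, pair_smul, h.fwd, abs_of_pos (inv_pos.mpr hα), Complex.real_smul]
    have hc : (α : ℂ) ≠ 0 := by exact_mod_cast hα'
    push_cast
    rw [← mul_assoc, inv_mul_cancel₀ hc, one_mul]
  · have h1 := Measure.integral_comp_mul_left
      (fun y : ℝ => ((F y : ℝ) : ℂ) * ee (y * (α * x))) α⁻¹
    have h2 : ∀ t : ℝ, ((F (α⁻¹ * t) : ℝ) : ℂ) * ee (α⁻¹ * t * (α * x)) =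
        ((F (t / α) : ℝ) : ℂ) * ee (t * x) := by
      intro t
      have h3 : α⁻¹ * t * (α * x) = t * x := by field_simp
      rw [h3, div_eq_inv_mul]
    simp only [h2] at h1
    rw [h1, h.bwd, inv_inv, abs_of_pos hα, Complex.real_smul]
    push_cast
    rfl

theorem FP.bdd {f F : ℝ → ℝ} (h : FP f F) : ∃ C : ℝ, 0 ≤ C ∧ ∀ t, |F t| ≤ C := by
  refine ⟨∫ x, ‖f x‖, integral_nonneg fun x => norm_nonneg _, fun t => ?_⟩
  have h1 : ‖(F t : ℂ)‖ ≤ ∫ x, ‖(f x : ℂ) * ee (x * t)‖ := by
    rw [← h.fwd t]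
    exact norm_integral_le_integral_norm _
  have h2 : ∀ x : ℝ, ‖(f x : ℂ) * ee (x * t)‖ = ‖f x‖ := fun x => by
    rw [norm_mul, norm_ee, mul_one, Complex.norm_real]
  simp only [h2] at h1
  rwa [Complex.norm_real, Real.norm_eq_abs] at h1

/-- `F` is real, hence even -/
theorem FP.even {f F : ℝ → ℝ} (h : FP f F) (t : ℝ) : F (-t) = F t := by
  have h1 : (F (-t) : ℂ) = (starRingEnd ℂ) (F t : ℂ) := by
    rw [← h.fwd t, ← h.fwd (-t), ← integral_conj]
    congr 1
    funext x
    rw [map_mul, Complex.conj_ofReal, ← pair_ee_neg, mul_neg]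
  rw [Complex.conj_ofReal] at h1
  exact_mod_cast h1

end Pool.Agent.Lib.MP_d2370c_gt.SQ
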