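import Mathlib
import Pool.Agent.Lib.MP_d2370c_gt.SQ.Ball
import Pool.Agent.Lib.MP_d2370c_gt.ClassR

/-!
# Subquotients of polars of 2-convex unconditional bodies
-/

set_option autoImplicit false

open Finset MeasureTheory Filter Topology

namespace Pool.Agent.Lib.MP_d2370c_gt.SQ

open Pool.Agent.Lib.MP_d2370c_gt

variable {n N d : ℕ}

theorem c4c_lin_scale (u : Fin N → Fin n → ℝ) (D : Fin N → ℝ) (x : Fin n → ℝ) (i : Fin N) :
    lin (fun i k => D i * u i k) x i = D i * lin u x i := by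
  simp only [lin, Finset.mul_sum, mul_assoc]

theorem c4c_inj_scale {u : Fin N → Fin n → ℝ} (hu : Inj u) (D : Fin N → ℝ) (hD : ∀ i, D i ≠ 0) :
    Inj (fun i k => D i * u i k) := by
  intro x hx
  apply hu x
  ext i
  have h := congrFun hx i
  rw [c4c_lin_scale] at h
  simpa [hD i] using h

theorem c4c_convex (u : Fin N → Fin n → ℝ) (v : Fin n → Fin d → ℝ) (x0 : Fin d → ℝ) (T : Set (Fin N → ℝ))
    (hT : Convex ℝ T) : Convex ℝ (subq u v x0 T) := by
  rintro _ ⟨x, hx, rfl⟩ _ ⟨y, hy, rfl⟩ a b ha hb hab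
  refine ⟨a • x + b • y, ?_, ?_⟩
  · have h := hT hx hy ha hb hab
    have e : lin u (a • x + b • y) = a • lin u x + b • lin u y := by
      ext i
      simp only [lin, Pi.add_apply, Pi.smul_apply, smul_eq_mul, Finset.mul_sum, ← Finset.sum_add_distrib]
      exact Finset.sum_congr rfl fun k _ => by ring
    rw [e]
    exact h
  · ext i
    simp only [XX, Pi.add_apply, Pi.smul_apply, smul_eq_mul]
    have e : ∑ j, (a * x j + b * y j) * v j i = a * ∑ j, x j * v j i + b * ∑ j, y j * v j i := by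
      rw [Finset.mul_sum, Finset.mul_sum, ← Finset.sum_add_distrib]
      exact Finset.sum_congr rfl fun j _ => by ring
    rw [e]
    have hb' : b = 1 - a := by linarith
    subst hb'
    ring

theorem width_subq_pol (T : Set (Fin N → ℝ)) (hT : SolidConvex 2 T) {u : Fin N → Fin n → ℝ} (hu : Inj u)
    (v : Fin n → Fin d → ℝ) (x0 : Fin d → ℝ) (hint : (interior (subq u v x0 (pol T))).Nonempty)
    (hfree : ∀ z : Fin d → ℤ, (fun i => (z i : ℝ)) ∉ interior (subq u v x0 (pol T))) :
    ∃ y : Fin d → ℤ, y ≠ 0 ∧ ∀ z ∈ subq u v x0 (pol T), ∀ z' ∈ subq u v x0 (pol T),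
      ∑ i, (z i - z' i) * (y i : ℝ) ≤ 8 / 5 * N := by
  obtain ⟨D, hD0, hD, hDle⟩ := hT.exists_box one_le_two
  have hc := c4c_convex u v x0 (pol T) (convex_pol T)
  rcases Nat.eq_zero_or_pos N with hN | hN
  · subst hN
    have h := width_le_ballSec (subq u v x0 (pol T)) hc hint hfree hu v x0 1 zero_le_one ?_ ?_
    · simpa using h
    · intro x _
      exact ⟨x, fun s _ => by simp, rfl⟩
    · rintro _ ⟨x, _, rfl⟩
      exact ⟨x, by simp, rfl⟩
  have hN' : (0 : ℝ) < N := by exact_mod_cast hN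
  have hND : ∀ i, (N : ℝ) * D i ≠ 0 := fun i => (mul_pos hN' (hD0 i)).ne'
  have h := width_le_ballSec (subq u v x0 (pol T)) hc hint hfree (c4c_inj_scale hu (fun i => N * D i) hND)
    v x0 1 zero_le_one ?_ ?_
  · simpa using h
  · intro x hx
    refine ⟨x, ?_, rfl⟩
    intro t ht
    simp only [c4c_lin_scale] at hx
    -- Cauchy-Schwarz
    have h1 : (∑ j, (D j * lin u x j) * (t j / D j)) ^ 2 ≤
        (∑ j, (D j * lin u x j) ^ 2) * ∑ j, (t j / D j) ^ 2 := Finset.sum_mul_sq_le_sq_mul_sq _ _ _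
    have h2 : ∑ j, (D j * lin u x j) ^ 2 ≤ 1 / N := by
      have e : ∑ j, (N * D j * lin u x j) ^ 2 = (N : ℝ) ^ 2 * ∑ j, (D j * lin u x j) ^ 2 := by
        rw [Finset.mul_sum]
        exact Finset.sum_congr rfl fun j _ => by ring
      rw [e] at hx
      rw [le_div_iff₀ hN']
      by_contra hcon
      push Not at hcon
      nlinarith
    have h3 : ∑ j, (t j / D j) ^ 2 ≤ N := by
      have := hDle t ht
      refine le_trans (le_of_eq ?_) this
      refine Finset.sum_congr rfl fun j _ => ?_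
      rw [Real.rpow_two, div_pow, div_pow, sq_abs]
    have h4 : (∑ j, (D j * lin u x j) * (t j / D j)) ^ 2 ≤ 1 := by
      calc _ ≤ _ := h1
        _ ≤ (1 / N) * N := mul_le_mul h2 h3 (Finset.sum_nonneg fun _ _ => sq_nonneg _) (by positivity)
        _ = 1 := by field_simp
    have h5 : ∑ j, lin u x j * t j = ∑ j, (D j * lin u x j) * (t j / D j) := by
      refine Finset.sum_congr rfl fun j _ => ?_
      have := (hD0 j).ne'
      field_simp
    rw [h5]
    have h6 : (∑ j, (D j * lin u x j) * (t j / D j)) ^ 2 ≤ 1 ^ 2 := by simpa using h4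
    exact (abs_le_of_sq_le_sq' h6 zero_le_one).2
  · rintro _ ⟨x, hs, rfl⟩
    refine ⟨x, ?_, rfl⟩
    have h1 : (fun j => if 0 ≤ lin u x j then D j else -D j) ∈ T := by
      refine hT.solid D hD _ fun j => ?_
      split_ifs
      · exact le_refl _
      · rw [abs_neg]
    have h2 := hs _ h1
    have h3 : ∑ j, lin u x j * (if 0 ≤ lin u x j then D j else -D j) = ∑ j, D j * |lin u x j| := by
      refine Finset.sum_congr rfl fun j _ => ?_
      split_ifs with h
      · rw [abs_of_nonneg h]; ring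
      · rw [abs_of_neg (not_le.mp h)]; ring
    rw [h3] at h2
    have h4 : ∑ j, |lin (fun i k => N * D i * u i k) x j| = N * ∑ j, D j * |lin u x j| := by
      rw [Finset.mul_sum]
      refine Finset.sum_congr rfl fun j _ => ?_
      rw [c4c_lin_scale, abs_mul, abs_mul, abs_of_pos hN', abs_of_pos (hD0 j)]
      ring
    rw [h4]
    nlinarith

end Pool.Agent.Lib.MP_d2370c_gt.SQ
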