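import Mathlib
import Pool.Agent.Lib.MP_d2370c_gt.SQ.Defs
import Pool.Agent.Lib.MP_d2370c_gt.SQ.Cube

/-!
# C4a: symmetric polytopes with at most `2 N` facets
-/

set_option autoImplicit false

open Finset MeasureTheory

namespace Pool.Agent.Lib.MP_d2370c_gt.SQ

open Pool.Agent.Lib.MP_d2370c_gt

variable {n N d : ℕ}

/-- the unit vectors -/
def slabV (k i : Fin d) : ℝ := if k = i then 1 else 0

theorem slab_XX (x0 x : Fin d → ℝ) : XX x0 slabV x = fun i => x0 i + x i := by
  funext i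
  unfold XX slabV
  congr 1
  simp

theorem slab_eq (u : Fin N → Fin d → ℝ) (x0 z : Fin d → ℝ) :
    z ∈ slab u x0 ↔ ∀ i, |lin u (fun k => z k - x0 k) i| ≤ 1 := Iff.rfl

theorem slab_convex (u : Fin N → Fin d → ℝ) (x0 : Fin d → ℝ) : Convex ℝ (slab u x0) := by
  intro z hz z' hz' a b ha hb hab i
  have h1 := hz i
  have h2 := hz' i
  have e : ∑ k, u i k * ((a • z + b • z') k - x0 k) =
      a * (∑ k, u i k * (z k - x0 k)) + b * (∑ k, u i k * (z' k - x0 k)) := by
    rw [Finset.mul_sum, Finset.mul_sum, ← Finset.sum_add_distrib]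
    refine Finset.sum_congr rfl fun k _ => ?_
    have hx : x0 k = a * x0 k + b * x0 k := by rw [← add_mul, hab, one_mul]
    simp only [Pi.add_apply, Pi.smul_apply, smul_eq_mul]
    linear_combination (-(u i k)) * hx
  rw [e]
  rw [abs_le] at h1 h2 ⊢
  constructor <;> nlinarith

theorem slab_inj (u : Fin N → Fin d → ℝ) (x0 : Fin d → ℝ) (hK : Bornology.IsBounded (slab u x0)) :
    Inj u := by
  intro x hx
  obtain ⟨C, hC⟩ := hK.exists_norm_le
  have hmem : ∀ s : ℝ, x0 + s • x ∈ slab u x0 := by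
    intro s i
    have e : ∑ k, u i k * ((x0 + s • x) k - x0 k) = s * lin u x i := by
      unfold lin
      rw [Finset.mul_sum]
      refine Finset.sum_congr rfl fun k _ => ?_
      simp only [Pi.add_apply, Pi.smul_apply, smul_eq_mul]
      ring
    rw [e, hx]
    simp
  by_contra hne
  have hpos : 0 < ‖x‖ := norm_pos_iff.2 hne
  have h1 := hC _ (hmem ((C + ‖x0‖ + 1) / ‖x‖))
  have hC0 : 0 ≤ C := (norm_nonneg _).trans (hC _ (hmem 0))
  have h2 : ‖((C + ‖x0‖ + 1) / ‖x‖) • x‖ = C + ‖x0‖ + 1 := by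
    rw [norm_smul, Real.norm_eq_abs, abs_of_nonneg (by positivity)]
    field_simp
  have h3 : ‖((C + ‖x0‖ + 1) / ‖x‖) • x‖ ≤ ‖x0 + ((C + ‖x0‖ + 1) / ‖x‖) • x‖ + ‖x0‖ := by
    have := norm_sub_le (x0 + ((C + ‖x0‖ + 1) / ‖x‖) • x) x0
    simpa using this
  linarith

theorem slab_interior (u : Fin N → Fin d → ℝ) (x0 : Fin d → ℝ) : (interior (slab u x0)).Nonempty := by
  refine ⟨x0, ?_⟩
  have hopen : IsOpen {z : Fin d → ℝ | ∀ i, |∑ k, u i k * (z k - x0 k)| < 1} := by
    rw [show {z : Fin d → ℝ | ∀ i, |∑ k, u i k * (z k - x0 k)| < 1} =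
      ⋂ i, {z : Fin d → ℝ | |∑ k, u i k * (z k - x0 k)| < 1} by ext z; simp]
    exact isOpen_iInter_of_finite fun i => isOpen_lt (by fun_prop) (by fun_prop)
  exact interior_maximal (fun z hz i => (hz i).le) hopen (by intro i; simp)

/-- boundedness gives `Inj u`; then `width_le_cubeSec` with `n = d`, `v` the identity -/
theorem width_slab (u : Fin N → Fin d → ℝ) (x0 : Fin d → ℝ) (hK : Bornology.IsBounded (slab u x0))
    (hfree : ∀ z : Fin d → ℤ, (fun i => (z i : ℝ)) ∉ interior (slab u x0)) :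
    ∃ y : Fin d → ℤ, y ≠ 0 ∧ ∀ z ∈ slab u x0, ∀ z' ∈ slab u x0, ∑ i, (z i - z' i) * (y i : ℝ) ≤ 9 / 4 * N := by
  have h := width_le_cubeSec (slab u x0) (slab_convex u x0) (slab_interior u x0) hfree
    (slab_inj u x0 hK) slabV x0 1 zero_le_one (fun x hx => by
      rw [slab_eq, slab_XX]
      intro i
      simpa using hx i) (fun z hz => by
      refine ⟨fun k => z k - x0 k, ?_, ?_⟩
      · rw [slab_eq] at hz
        calc ∑ i, lin u (fun k => z k - x0 k) i ^ 2 ≤ ∑ _i : Fin N, (1 : ℝ) := by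
              refine Finset.sum_le_sum fun i _ => ?_
              have := hz i
              rw [← sq_abs]
              exact pow_le_one₀ (abs_nonneg _) this
          _ = 1 ^ 2 * N := by simp
      · rw [slab_XX]
        funext i
        simp)
  simpa using h

end Pool.Agent.Lib.MP_d2370c_gt.SQ
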